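import Mathlib
import Pool.Agent.Helper40.CX.H21TO.Defs3

/-!
# Cyclic base change of Weierstrass models, and the automorphism of the base change

`pull W m` is the Weierstrass equation `y ^ 2 z = x ^ 3 + A (u0 ^ m, u1 ^ m) x z ^ 2 + ..`; the roots
of unity `g` of order dividing `m` act on it by `(u0 : u1; x : y : z) ↦ (g u0 : u1; x : y : z)`.
-/

set_option autoImplicit false
set_option linter.unusedSectionVars false

namespace CX.CHI

open CX.VC CX.VF Function Polynomial
open CX.Pool.Agent.Helper51.EW (Wei Coord WPt)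
open CX.Pool.Agent.Helper21.TO

universe u

section

variable {k : Type u} [Field k]

theorem isHomogeneous_expand {σ : Type*} {F : MvPolynomial σ k} {n : ℕ} (h : F.IsHomogeneous n)
    (m : ℕ) : (MvPolynomial.expand m F).IsHomogeneous (m * n) := by
  have h1 : (MvPolynomial.expand m F) = MvPolynomial.aeval (fun i => MvPolynomial.X i ^ m) F := rfl
  rw [h1]
  exact h.aeval _ (n := m) (fun i => by
    have := (MvPolynomial.isHomogeneous_X k i).pow m
    rwa [one_mul] at this)

/-- The Weierstrass equation after the base change `u ↦ u ^ m` of the projective line. -/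
noncomputable def pull (W : Wei k) (m : ℕ) : Wei k where
  N := m * W.N
  A := MvPolynomial.expand m W.A
  B := MvPolynomial.expand m W.B
  hA := by
    have h := isHomogeneous_expand W.hA m
    rwa [show m * (4 * W.N) = 4 * (m * W.N) by ring] at h
  hB := by
    have h := isHomogeneous_expand W.hB m
    rwa [show m * (6 * W.N) = 6 * (m * W.N) by ring] at h

theorem aeval_expand {K : Type u} [Field K] [Algebra k K] (m : ℕ) (F : MvPolynomial (Fin 2) k)
    (u : Fin 2 → K) :
    MvPolynomial.aeval u (MvPolynomial.expand m F) = MvPolynomial.aeval (fun i => u i ^ m) F := by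
  have h1 : (MvPolynomial.expand m F) = MvPolynomial.bind₁ (fun i => MvPolynomial.X i ^ m) F := rfl
  rw [h1, MvPolynomial.aeval_bind₁]
  congr 2
  funext i
  rw [map_pow, MvPolynomial.aeval_X]

variable {W : Wei k} {m : ℕ} {K : Type u} [Field K] [Algebra k K]

theorem aeval_rot (F : MvPolynomial (Fin 2) k) {g : k} (hg : g ^ m = 1) (u : Fin 2 → K) :
    MvPolynomial.aeval ![algebraMap k K g * u 0, u 1] (MvPolynomial.expand m F) =
      MvPolynomial.aeval u (MvPolynomial.expand m F) := by
  rw [aeval_expand, aeval_expand]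
  congr 2
  funext i
  fin_cases i
  · change (algebraMap k K g * u 0) ^ m = u 0 ^ m
    rw [mul_pow, ← map_pow, hg, map_one, one_mul]
  · rfl

/-- The automorphism on coordinates. -/
noncomputable def rotC (g : k) (hg : g ^ m = 1) (hm : m ≠ 0) (a : Coord (pull W m) K) : Coord (pull W m) K where
  u := ![algebraMap k K g * a.u 0, a.u 1]
  w := a.w
  u_ne := by
    have hg0 : g ≠ 0 := by
      rintro rfl
      rw [zero_pow hm] at hg
      exact zero_ne_one hg
    intro h
    apply a.u_ne
    funext i
    fin_cases i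
    · have h0 := congrFun h 0
      change algebraMap k K g * a.u 0 = 0 at h0
      exact (mul_eq_zero.mp h0).resolve_left ((_root_.map_ne_zero _).mpr hg0)
    · exact congrFun h 1
  w_ne := a.w_ne
  eqn := by
    have h := a.eqn
    change a.w 1 ^ 2 * a.w 2 = a.w 0 ^ 3 +
      MvPolynomial.aeval ![algebraMap k K g * a.u 0, a.u 1] (MvPolynomial.expand m W.A) * a.w 0 *
        a.w 2 ^ 2 +
      MvPolynomial.aeval ![algebraMap k K g * a.u 0, a.u 1] (MvPolynomial.expand m W.B) * a.w 2 ^ 3
    rw [aeval_rot W.A hg, aeval_rot W.B hg]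
    exact h

/-- The automorphism `(u0 : u1; x : y : z) ↦ (g u0 : u1; x : y : z)`, for `g ^ m = 1`. -/
noncomputable def rot (g : k) (hg : g ^ m = 1) (hm : m ≠ 0) (p : WPt (pull W m) K) : WPt (pull W m) K :=
  Quotient.map (rotC g hg hm) (by
    rintro a b ⟨l, c, hl, hc, h1, h2⟩
    refine ⟨l, c, hl, hc, fun i => ?_, h2⟩
    fin_cases i
    · change algebraMap k K g * b.u 0 = l * (algebraMap k K g * a.u 0)
      rw [h1 0]; ring
    · exact h1 1) p

theorem rot_mk (g : k) (hg : g ^ m = 1) (hm : m ≠ 0) (a : Coord (pull W m) K) :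
    rot g hg hm (WPt.mk a) = WPt.mk (rotC g hg hm a) := rfl

end

variable {k : Type u} [Field k]

/-- Voisin's property for the character `χ` of the automorphism `g` of `X`: every function on
`X ^ n` which vanishes on the cycles rationally equivalent to zero, and is multiplied by `χ` if
`g` is applied to one of the arguments, has zero alternating sums. -/
def VoisinChi (X : Variety k) (g : X.Pt → X.Pt) (χ : ℂ) (n : ℕ) : Prop :=
  ∀ Φ : (X.pow n).Pt → ℂ, Kills (X.pow n) Φ →
    (∀ (p : (X.pow n).Pt) (i : Fin n), Φ (update p i (g (p i))) = χ * Φ p) →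
    ∀ p : (X.pow n).Pt, ∑ σ : Equiv.Perm (Fin n), ((Equiv.Perm.sign σ : ℤˣ) : ℤ) •
      Φ (fun i => p (σ i)) = 0

end CX.CHI
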