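import Mathlib
import Pool.Agent.Helper40.CX.CHI.Defs

/-!
# Linear automorphisms of closed subsets of projective space
-/

set_option autoImplicit false
set_option linter.unusedSectionVars false

namespace CX.CHI

open CX.VC CX.VF Function Polynomial
open CX.Pool.Agent.Helper51.EW (Wei Coord WPt)
open CX.Pool.Agent.Helper21.TO

universe u

section

variable {k : Type u} [Field k] {K : Type u} [Field K] [Algebra k K] {M : ℕ}

/-- The matrix `g` applied to a vector. -/
def mulV (g : Matrix (Fin M) (Fin M) k) (a : Fin M → K) : Fin M → K :=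
  fun i => ∑ j, algebraMap k K (g i j) * a j

theorem mulV_smul (g : Matrix (Fin M) (Fin M) k) (l : K) (a : Fin M → K) :
    mulV g (fun i => l * a i) = fun i => l * mulV g a i := by
  funext i
  unfold mulV
  rw [Finset.mul_sum]
  exact Finset.sum_congr rfl fun j _ => by ring

theorem mulV_zero (g : Matrix (Fin M) (Fin M) k) : mulV g (0 : Fin M → K) = 0 := by
  funext i
  unfold mulV
  simp

theorem mulV_one (a : Fin M → K) : mulV (1 : Matrix (Fin M) (Fin M) k) a = a := by
  funext i
  unfold mulV
  rw [Finset.sum_eq_single i]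
  · rw [Matrix.one_apply_eq, map_one, one_mul]
  · intro j _ hj
    rw [Matrix.one_apply_ne (Ne.symm hj), map_zero, zero_mul]
  · intro h
    exact absurd (Finset.mem_univ i) h

theorem mulV_mul (g h : Matrix (Fin M) (Fin M) k) (a : Fin M → K) :
    mulV (g * h) a = mulV g (mulV h a) := by
  funext i
  unfold mulV
  simp only [Matrix.mul_apply, map_sum, map_mul, Finset.sum_mul, Finset.mul_sum]
  rw [Finset.sum_comm]
  exact Finset.sum_congr rfl fun j _ => Finset.sum_congr rfl fun l _ => by ring

theorem mulV_map {K' : Type u} [Field K'] [Algebra k K'] (g : Matrix (Fin M) (Fin M) k)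
    (a : Fin M → K) (f : K →ₐ[k] K') : (fun i => f (mulV g a i)) = mulV g (fun i => f (a i)) := by
  funext i
  unfold mulV
  rw [map_sum]
  exact Finset.sum_congr rfl fun j _ => by rw [map_mul, AlgHom.commutes]

theorem isRes_sum {v : Place k K} {ι : Type*} (s : Finset ι) (f : ι → K) (g : ι → k)
    (h : ∀ i ∈ s, IsRes v (f i) (g i)) : IsRes v (∑ i ∈ s, f i) (∑ i ∈ s, g i) := by
  classical
  induction s using Finset.induction_on with
  | empty =>
    rw [Finset.sum_empty, Finset.sum_empty]
    exact isRes_zero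
  | insert a s ha ih =>
    rw [Finset.sum_insert ha, Finset.sum_insert ha]
    exact (h a (Finset.mem_insert_self a s)).add
      (ih fun i hi => h i (Finset.mem_insert_of_mem hi))

theorem isRes_mulV {v : Place k K} (g : Matrix (Fin M) (Fin M) k) {a : Fin M → K} {b : Fin M → k}
    (h : ∀ i, IsRes v (a i) (b i)) (i : Fin M) : IsRes v (mulV g a i) (mulV g b i) := by
  unfold mulV
  refine isRes_sum Finset.univ _ _ fun j _ => ?_
  exact (isRes_const (v := v) (g i j)).mul (h j)

end

/-! ### Linear automorphisms -/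

section lin

variable {k : Type u} [Field k] {M : ℕ}

/-- The matrix `g` maps the closed subset defined by `I` to itself, and its kernel does not meet
it. -/
structure Lin (g : Matrix (Fin M) (Fin M) k) (I : Set (MvPolynomial (Fin M) k)) : Prop where
  sat : ∀ (K : Type u) [Field K] [Algebra k K] (a : Fin M → K), Sat I a → Sat I (mulV g a)
  ne : ∀ (K : Type u) [Field K] [Algebra k K] (a : Fin M → K), Sat I a → a ≠ 0 → mulV g a ≠ 0

variable {g : Matrix (Fin M) (Fin M) k} {I : Set (MvPolynomial (Fin M) k)} {K : Type u} [Field K]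
  [Algebra k K]

/-- The map of points given by a matrix. -/
noncomputable def linPt (h : Lin g I) (x : PPt k K I) : PPt k K I :=
  ppt (mulV g x.1.rep) (h.ne K _ x.2 x.1.rep_nonzero) (h.sat K _ x.2)

theorem linPt_ppt (h : Lin g I) (a : Fin M → K) (ha : a ≠ 0) (hs : Sat I a) :
    linPt h (ppt a ha hs) = ppt (mulV g a) (h.ne K a hs ha) (h.sat K a hs) := by
  unfold linPt
  obtain ⟨c, hc⟩ := Projectivization.exists_smul_eq_mk_rep K a ha
  rw [ppt_eq_iff]
  refine ⟨(c : K), fun i => ?_⟩
  have e : (ppt a ha hs).1.rep = fun i => (c : K) * a i := by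
    change (Projectivization.mk K a ha).rep = _
    rw [← hc]
    funext i
    rw [Pi.smul_apply, Units.smul_def, smul_eq_mul]
  rw [e, mulV_smul]

theorem linPt_unique (h : Lin g I) {x y : PPt k K I}
    (hxy : ∃ c : K, ∀ i, mulV g x.1.rep i = c * y.1.rep i) : linPt h x = y := by
  obtain ⟨c, hc⟩ := hxy
  have hy : y = ppt y.1.rep y.1.rep_nonzero y.2 := by
    apply Subtype.ext
    exact y.1.mk_rep.symm
  conv_rhs => rw [hy]
  unfold linPt
  rw [ppt_eq_iff]
  exact ⟨c, fun i => (hc i).symm⟩

variable [IsAlgClosed k] [CX.Good k]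

theorem eval_linPt (h : Lin g I) (hK : IsFunctionField k K) (v : Place k K) (c : PPt k K I) :
    (proj k I).eval hK (linPt h c) v = linPt h ((proj k I).eval hK c v) := by
  obtain ⟨a, ha, hs, b, hb, hb', rfl, e2, hv⟩ := exists_pcoord hK v c
  rw [e2, linPt_ppt, linPt_ppt]
  exact peval_eq hK v _ _ _ _ (isRes_mulV g hv)

theorem induced_linPt (h : Lin g I) : Induced (proj k I) (proj k I) (linPt h) := by
  intro K _ _ hK c
  exact ⟨linPt h c, fun v => eval_linPt h hK v c⟩

/-- The cycles killed by all functionals are mapped to such cycles. -/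
theorem nul_map (h : Lin g I) {z : (proj k I).Cycles} (hz : Nul (proj k I) z) :
    Nul (proj k I) (Finsupp.mapDomain (linPt h) z) := by
  intro φ hφ
  have h1 := hz (fun x => φ (linPt h x)) (hφ.comp (induced_linPt h))
  rw [Finsupp.linearCombination_mapDomain]
  exact h1

end lin

/-! ### Linear automorphisms of the closure of a point -/

section van

variable {k : Type u} [Field k] {Ω : Type u} [Field Ω] [Algebra k Ω] {M : ℕ}

/-- The forms in the linear forms given by the rows of the matrix. -/
noncomputable def subst (g : Matrix (Fin M) (Fin M) k) (P : MvPolynomial (Fin M) k) :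
    MvPolynomial (Fin M) k :=
  MvPolynomial.bind₁ (fun i => ∑ j, MvPolynomial.C (g i j) * MvPolynomial.X j) P

theorem aeval_subst {K : Type u} [Field K] [Algebra k K] (g : Matrix (Fin M) (Fin M) k)
    (P : MvPolynomial (Fin M) k) (a : Fin M → K) :
    MvPolynomial.aeval a (subst g P) = MvPolynomial.aeval (mulV g a) P := by
  unfold subst
  rw [MvPolynomial.aeval_bind₁]
  congr 2
  funext i
  rw [map_sum]
  unfold mulV
  refine Finset.sum_congr rfl fun j _ => ?_
  rw [map_mul, MvPolynomial.aeval_X, MvPolynomial.algHom_C]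

theorem isHomogeneous_subst (g : Matrix (Fin M) (Fin M) k) {P : MvPolynomial (Fin M) k} {n : ℕ}
    (h : P.IsHomogeneous n) : (subst g P).IsHomogeneous n := by
  have h1 : subst g P = MvPolynomial.aeval
      (fun i => ∑ j, MvPolynomial.C (g i j) * MvPolynomial.X j) P := rfl
  rw [h1]
  have h2 := h.aeval (fun i => ∑ j, MvPolynomial.C (g i j) * MvPolynomial.X j) (n := 1)
    (fun i => MvPolynomial.IsHomogeneous.sum _ _ _ fun j _ =>
      MvPolynomial.isHomogeneous_C_mul_X _ _)
  rwa [one_mul] at h2

theorem lin_van {g : Matrix (Fin M) (Fin M) k} {ξ : Fin M → Ω} {σ : Ω →ₐ[k] Ω}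
    (hσ : ∀ i, σ (ξ i) = mulV g ξ i) {m : ℕ} (hm : m ≠ 0) (hg : mulV (g ^ m) ξ = ξ) :
    Lin g (van k ξ) where
  sat := by
    intro K _ _ a ha P hP n hn
    rw [← aeval_subst]
    refine ha (subst g P) ?_ n (isHomogeneous_subst g hn)
    change MvPolynomial.aeval ξ (subst g P) = 0
    rw [aeval_subst, ← funext hσ]
    have h1 : MvPolynomial.aeval (fun i => σ (ξ i)) P = σ (MvPolynomial.aeval ξ P) :=
      (MvPolynomial.comp_aeval_apply (R := k) ξ σ P).symm
    have h2 : MvPolynomial.aeval ξ P = 0 := hP
    rw [h1, h2, map_zero]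
  ne := by
    intro K _ _ a ha h0 h1
    apply h0
    have h2 : mulV (g ^ m) a = a := by
      funext i
      have h3 := ha (subst (g ^ m) (MvPolynomial.X i) - MvPolynomial.X i) (by
        change MvPolynomial.aeval ξ (subst (g ^ m) (MvPolynomial.X i) - MvPolynomial.X i) = 0
        rw [map_sub, aeval_subst, hg, sub_self]) 1
        ((isHomogeneous_subst _ (MvPolynomial.isHomogeneous_X _ _)).sub
          (MvPolynomial.isHomogeneous_X _ _))
      rw [map_sub, aeval_subst, MvPolynomial.aeval_X, MvPolynomial.aeval_X] at h3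
      exact sub_eq_zero.mp h3
    obtain ⟨l, rfl⟩ := Nat.exists_eq_succ_of_ne_zero hm
    rw [← h2, pow_succ, mulV_mul, h1, mulV_zero]

end van

end CX.CHI
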