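import Mathlib
import Pool.Agent.Helper9.NS
import Pool.Agent.Helper40.CX.CHI.Twist
import Pool.Agent.Helper40.CX.H21TO.WCases
import Pool.Agent.Helper40.CX.H21TO.ExModel

/-!
# The cycles of the points of the Weierstrass model and the automorphisms
-/

set_option autoImplicit false
set_option linter.unusedSectionVars false

namespace CX.CHI

open CX.VC CX.VF Function Polynomial
open CX.Pool.Agent.Helper51.EW (Wei Coord WPt aff zeroPt)
open CX.Pool.Agent.Helper21.TO

universe u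

variable {k : Type u} [Field k] [IsAlgClosed k] [CX.Good k] {W : Wei k} {m : ℕ} {L : Type u}
  [Field L] [Algebra k L]

theorem aeval_mu (F : MvPolynomial (Fin 2) k) {γ μ : k} (hγ : γ ^ m = 1) (hμ : μ ^ m = 1)
    {c c' : Fin 2 → k} (h0 : c' 0 = μ * (γ * c 0)) (h1 : c' 1 = μ * c 1) :
    MvPolynomial.aeval c' (MvPolynomial.expand m F) =
      MvPolynomial.aeval c (MvPolynomial.expand m F) := by
  rw [aeval_expand, aeval_expand]
  congr 2
  funext i
  fin_cases i
  · change c' 0 ^ m = c 0 ^ m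
    rw [h0, mul_pow, mul_pow, hγ, hμ, one_mul, one_mul]
  · change c' 1 ^ m = c 1 ^ m
    rw [h1, mul_pow, hμ, one_mul]

theorem ptJ_rot {γ μ : k} (hγ : γ ^ m = 1) (hm : m ≠ 0) (hμ : μ ^ m = 1) {c c' : Fin 2 → k}
    (hc : c ≠ 0) (hc' : c' ≠ 0) (h0 : c' 0 = μ * (γ * c 0)) (h1 : c' 1 = μ * c 1)
    (hA : MvPolynomial.aeval c' (pull W m).A = 1 ^ 4 * MvPolynomial.aeval c (pull W m).A)
    (hB : MvPolynomial.aeval c' (pull W m).B = 1 ^ 6 * MvPolynomial.aeval c (pull W m).B)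
    (a : EPt (MvPolynomial.aeval c (pull W m).A) (MvPolynomial.aeval c (pull W m).B)) :
    rot γ hγ hm (ptJ (pull W m) c hc a) = ptJ (pull W m) c' hc' (scF 1 one_ne_zero hA hB a) := by
  have hμ0 : μ ≠ 0 := by
    rintro rfl
    rw [zero_pow hm] at hμ
    exact zero_ne_one hμ
  have e2 : μ ^ (2 * (m * W.N)) = 1 := by
    rw [show 2 * (m * W.N) = m * (2 * W.N) by ring, pow_mul, hμ, one_pow]
  have e3 : μ ^ (3 * (m * W.N)) = 1 := by
    rw [show 3 * (m * W.N) = m * (3 * W.N) by ring, pow_mul, hμ, one_pow]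
  rcases a with _ | ⟨x, y, hxy⟩
  · change rot γ hγ hm (WPt.mk (CX.Pool.Agent.Helper51.EW.zeroC c hc)) =
      WPt.mk (CX.Pool.Agent.Helper51.EW.zeroC c' hc')
    rw [rot_mk, CX.Pool.Agent.Helper51.EW.mk_eq_iff]
    refine ⟨μ, 1, hμ0, one_ne_zero, fun i => ?_, fun i => ?_⟩
    · fin_cases i
      · exact h0
      · exact h1
    · fin_cases i
      · change (0 : k) = μ ^ (2 * (m * W.N)) * 1 * 0
        rw [mul_zero]
      · change (1 : k) = μ ^ (3 * (m * W.N)) * 1 * 1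
        rw [e3, mul_one, mul_one]
      · change (0 : k) = μ ^ 0 * 1 * 0
        rw [mul_zero]
  · change rot γ hγ hm (WPt.mk (CX.Pool.Agent.Helper51.EW.affC c x y hc (sw_nonsingular.mp hxy).1)) =
      WPt.mk (CX.Pool.Agent.Helper51.EW.affC c' (1 ^ 2 * x) (1 ^ 3 * y) hc' _)
    rw [rot_mk, CX.Pool.Agent.Helper51.EW.mk_eq_iff]
    refine ⟨μ, 1, hμ0, one_ne_zero, fun i => ?_, fun i => ?_⟩
    · fin_cases i
      · exact h0
      · exact h1
    · fin_cases i
      · change (1 : k) ^ 2 * x = μ ^ (2 * (m * W.N)) * 1 * x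
        rw [e2]; ring
      · change (1 : k) ^ 3 * y = μ ^ (3 * (m * W.N)) * 1 * y
        rw [e3]; ring
      · change (1 : k) = μ ^ 0 * 1 * 1
        rw [pow_zero, one_mul, mul_one]

/-- The cycle of the image of a point is the image of its cycle. -/
theorem cycJ_rot (D : Dat (pull W m) L) (hm : m ≠ 0) {γ : k} (hγ : γ ^ m = 1) {τ : L ≃ₐ[k] L}
    (hτ : τ D.t = algebraMap k L γ⁻¹ * D.t) {g : Matrix (Fin D.M) (Fin D.M) k} (hl : Lin g D.I)
    {e : EPt D.a D.b} (he : TwG D.p D.q D.a D.b τ g e) (y : WPt (pull W m) k) :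
    Nul D.S (cycJ D (rot γ hγ hm y) - Finsupp.mapDomain (linPt hl) (cycJ D y)) := by
  classical
  have hγ0 : γ ≠ 0 := by
    rintro rfl
    rw [zero_pow hm] at hγ
    exact zero_ne_one hγ
  have hγL : algebraMap k L γ ≠ 0 := (_root_.map_ne_zero _).mpr hγ0
  have hγi : γ⁻¹ ^ m = 1 := by rw [inv_pow, hγ, inv_one]
  obtain ⟨b, rfl⟩ := CX.Pool.Agent.Helper51.EW.exists_mk y
  by_cases hd : disc (pull W m) b.u = 0
  · rw [rot_mk, cycJ_bad D b hd, cycJ_bad D (rotC γ hγ hm b) (by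
      unfold disc at hd ⊢
      rw [show MvPolynomial.aeval (rotC γ hγ hm b).u (pull W m).A =
        MvPolynomial.aeval b.u (pull W m).A from aeval_rot W.A hγ b.u,
        show MvPolynomial.aeval (rotC γ hγ hm b).u (pull W m).B =
        MvPolynomial.aeval b.u (pull W m).B from aeval_rot W.B hγ b.u]
      exact hd), Finsupp.mapDomain_zero, sub_zero]
    exact Nul.zero
  -- normalisation of the coordinates
  obtain ⟨b', hb', hbc⟩ : ∃ b' : Coord (pull W m) k, WPt.mk b = WPt.mk b' ∧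
      (b'.u 0 = 1 ∨ (b'.u 0 = 0 ∧ b'.u 1 = 1)) := by
    by_cases h0 : b.u 0 = 0
    · have h1 : b.u 1 ≠ 0 := by
        intro h1
        apply b.u_ne
        funext i
        fin_cases i
        · exact h0
        · exact h1
      refine ⟨CX.Pool.Agent.Helper51.EW.scale b (b.u 1)⁻¹ 1 (inv_ne_zero h1) one_ne_zero,
        (CX.Pool.Agent.Helper51.EW.same_scale b _ _ _ _).symm, Or.inr ⟨?_, ?_⟩⟩
      · change (b.u 1)⁻¹ * b.u 0 = 0
        rw [h0, mul_zero]
      · exact inv_mul_cancel₀ h1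
    · exact ⟨CX.Pool.Agent.Helper51.EW.scale b (b.u 0)⁻¹ 1 (inv_ne_zero h0) one_ne_zero,
        (CX.Pool.Agent.Helper51.EW.same_scale b _ _ _ _).symm, Or.inl (inv_mul_cancel₀ h0)⟩
  have hd' : disc (pull W m) b'.u ≠ 0 := by
    obtain ⟨l, c, hl0, _, h1, _⟩ := CX.Pool.Agent.Helper51.EW.mk_eq_iff.mp hb'
    have e : b'.u = fun i => l * b.u i := funext h1
    unfold disc at hd ⊢
    rw [e, CX.Pool.Agent.Helper51.EW.aeval_smul (pull W m).hA,
      CX.Pool.Agent.Helper51.EW.aeval_smul (pull W m).hB]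
    intro h0
    apply hd
    have h2 : l ^ (12 * (pull W m).N) * (4 * MvPolynomial.aeval b.u (pull W m).A ^ 3 +
        27 * MvPolynomial.aeval b.u (pull W m).B ^ 2) = 0 := by
      rw [← h0]
      ring
    exact (mul_eq_zero.mp h2).resolve_left (pow_ne_zero _ hl0)
  rw [hb']
  clear hb' hd b
  obtain ⟨v, l, hb⟩ := exists_over_base D b'.u hbc
  obtain ⟨hs, hA, hB⟩ := hb.scale
  obtain ⟨mo⟩ := exists_model D v hs hA hB
  obtain ⟨a, ha⟩ := WCases.exists_ptJ b' b'.u b'.u_ne rfl hd'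
  -- the other point of the base
  obtain ⟨c, hc⟩ : ∃ c, c = b'.u := ⟨_, rfl⟩
  obtain ⟨μ, c', hμ, h0, h1, hbb⟩ : ∃ (μ : k) (c' : Fin 2 → k), μ ^ m = 1 ∧
      c' 0 = μ * (γ * c 0) ∧ c' 1 = μ * c 1 ∧
      (Base D (Place.comap D.hL D.hL (τ : L →ₐ[k] L) v) l c' ∧ IsRes v (τ (l ^ (m * W.N)) / l ^ (m * W.N)) (1 : k)) := by
    have hov := over_comap D.hL D.hL (τ : L →ₐ[k] L) v
    rcases hb with ⟨e1, e2, e3⟩ | ⟨e1, e2, e3, e4⟩
    · refine ⟨γ⁻¹, ![1, γ⁻¹ * c 1], hγi, ?_, rfl, Or.inl ⟨e1, rfl, ?_⟩, ?_⟩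
      · change (1 : k) = _
        rw [hc, e2, mul_one, inv_mul_cancel₀ hγ0]
      · rw [← hov.isRes_iff D.hL]
        change IsRes v (τ D.t) (γ⁻¹ * c 1)
        rw [hτ, hc]
        exact (isRes_const γ⁻¹).mul e3
      · rw [e1, one_pow, map_one, div_one]
        exact isRes_one
    · refine ⟨1, ![0, 1], one_pow _, ?_, ?_, Or.inr ⟨e1, rfl, rfl, ?_⟩, ?_⟩
      · change (0 : k) = _
        rw [hc, e2, mul_zero, mul_zero]
      · change (1 : k) = _
        rw [hc, e3, mul_one]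
      · rw [← hov.isRes_iff D.hL]
        change IsRes v (τ D.t⁻¹) 0
        rw [map_inv₀, hτ, mul_inv, ← map_inv₀, inv_inv]
        have := (isRes_const (v := v) γ).mul e4
        rwa [mul_zero] at this
      · have ht0 : D.t⁻¹ ≠ 0 := by
          rw [← e1]
          exact (show Base D v l b'.u from Or.inr ⟨e1, e2, e3, e4⟩).l_ne
        rw [e1, map_pow, map_inv₀, hτ, mul_inv, ← map_inv₀, inv_inv, mul_pow, pow_mul,
          ← map_pow, hγ, map_one, one_pow, one_mul, div_self (pow_ne_zero _ ht0)]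
        exact isRes_one
  obtain ⟨hbb, hratio⟩ := hbb
  have hov := over_comap D.hL D.hL (τ : L →ₐ[k] L) v
  obtain ⟨hs', hA', hB'⟩ := hbb.scale
  obtain ⟨mo'⟩ := exists_model D _ hs' hA' hB'
  have eA : MvPolynomial.aeval c' (pull W m).A = MvPolynomial.aeval c (pull W m).A :=
    aeval_mu W.A hγ hμ h0 h1
  have eB : MvPolynomial.aeval c' (pull W m).B = MvPolynomial.aeval c (pull W m).B :=
    aeval_mu W.B hγ hμ h0 h1
  have fA : MvPolynomial.aeval c' (pull W m).A = 1 ^ 4 * MvPolynomial.aeval c (pull W m).A := by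
    rw [eA, one_pow, one_mul]
  have fB : MvPolynomial.aeval c' (pull W m).B = 1 ^ 6 * MvPolynomial.aeval c (pull W m).B := by
    rw [eB, one_pow, one_mul]
  have hd2 : disc (pull W m) c' ≠ 0 := by
    unfold disc at hd' ⊢
    rw [eA, eB, hc]
    exact hd'
  subst hc
  have hτa : τ D.a = D.a := by
    have h := map_cA D (τ : L →ₐ[k] L)
    have h2 : ((τ : L →ₐ[k] L) D.t) = algebraMap k L γ⁻¹ * D.t := hτ
    rw [h2] at h
    have h3 : MvPolynomial.aeval ![(1 : L), algebraMap k L γ⁻¹ * D.t] (pull W m).A = D.a := by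
      change MvPolynomial.aeval _ (MvPolynomial.expand m W.A) =
        MvPolynomial.aeval ![1, D.t] (MvPolynomial.expand m W.A)
      rw [aeval_expand, aeval_expand]
      congr 2
      funext i
      fin_cases i
      · rfl
      · change (algebraMap k L γ⁻¹ * D.t) ^ m = D.t ^ m
        rw [mul_pow, ← map_pow, hγi, map_one, one_mul]
    rw [h3] at h
    exact h
  have hτb : τ D.b = D.b := by
    have h := map_cB D (τ : L →ₐ[k] L)
    have h2 : ((τ : L →ₐ[k] L) D.t) = algebraMap k L γ⁻¹ * D.t := hτ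
    rw [h2] at h
    have h3 : MvPolynomial.aeval ![(1 : L), algebraMap k L γ⁻¹ * D.t] (pull W m).B = D.b := by
      change MvPolynomial.aeval _ (MvPolynomial.expand m W.B) =
        MvPolynomial.aeval ![1, D.t] (MvPolynomial.expand m W.B)
      rw [aeval_expand, aeval_expand]
      congr 2
      funext i
      fin_cases i
      · rfl
      · change (algebraMap k L γ⁻¹ * D.t) ^ m = D.t ^ m
        rw [mul_pow, ← map_pow, hγi, map_one, one_mul]
    rw [h3] at h
    exact h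
  have n1 := cycJ_eq D hb hd' b'.u_ne mo a
  have n2 := cycJ_eq D hbb hd2 hbb.c_ne mo' (scF 1 one_ne_zero fA fB a)
  have n3 := twist_cycG hτa hτb hl he hov mo mo' one_ne_zero hratio fA fB hd' a
  rw [← ha] at n1
  rw [← ptJ_rot hγ hm hμ b'.u_ne hbb.c_ne h0 h1 fA fB a, ← ha] at n2
  have n4 := nul_map hl n1
  have e4 : Finsupp.mapDomain (linPt hl) (cycJ D (WPt.mk b') - mo.cyc a) =
      Finsupp.mapDomain (linPt hl) (cycJ D (WPt.mk b')) -
        Finsupp.mapDomain (linPt hl) (mo.cyc a) := by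
    change Finsupp.lmapDomain ℤ ℤ (linPt hl) _ = _
    rw [map_sub]
    rfl
  rw [e4] at n4
  have n5 := (n2.sub n3).sub n4
  have e5 : cycJ D (rot γ hγ hm (WPt.mk b')) - mo'.cyc (scF 1 one_ne_zero fA fB a) -
      (Finsupp.mapDomain (linPt hl) (mo.cyc a) - mo'.cyc (scF 1 one_ne_zero fA fB a)) -
      (Finsupp.mapDomain (linPt hl) (cycJ D (WPt.mk b')) -
        Finsupp.mapDomain (linPt hl) (mo.cyc a)) =
      cycJ D (rot γ hγ hm (WPt.mk b')) - Finsupp.mapDomain (linPt hl) (cycJ D (WPt.mk b')) := by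
    abel
  rwa [e5] at n5

end CX.CHI
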