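import Mathlib

/-!
# The field generated by an element over the fixed field of a finite group
-/

set_option autoImplicit false

namespace CX.CHI

open IntermediateField

universe u

theorem mem_adjoin_of_stab {k L : Type u} [Field k] [Field L] [Algebra k L]
    (H : Subgroup (L ≃ₐ[k] L)) (hH : Finite H) {t w : L}
    (hfix : ∀ z : L, (∀ τ ∈ H, τ z = z) → z ∈ adjoin k {t}) {m : ℕ} (hw : w ^ m = t) {z : L}
    (hz : ∀ τ ∈ H, τ w = w → τ z = z) : z ∈ adjoin k {w} := by
  have hG : IsGalois (FixedPoints.subfield H L) L := IsGalois.of_fixed_field L H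
  let K1 : IntermediateField (FixedPoints.subfield H L) L :=
    adjoin (FixedPoints.subfield H L) {w}
  have h1 : z ∈ K1 := by
    rw [← IsGalois.fixedField_fixingSubgroup K1]
    rw [mem_fixedField_iff]
    intro φ hφ
    obtain ⟨τ, hτ⟩ := (FixedPoints.toAlgAut_bijective H L).2 φ
    have h2 : ∀ y, φ y = (τ : L ≃ₐ[k] L) y := by
      intro y
      rw [← hτ]
      rfl
    rw [h2]
    apply hz τ τ.2
    rw [← h2]
    exact (mem_fixingSubgroup_iff K1 φ).mp hφ w (mem_adjoin_simple_self _ w)
  have hle : adjoin k {t} ≤ adjoin k {w} := by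
    rw [adjoin_simple_le_iff, ← hw]
    exact pow_mem (mem_adjoin_simple_self k w) m
  change z ∈ adjoin (FixedPoints.subfield H L) {w} at h1
  clear hz
  induction h1 using adjoin_induction with
  | mem x hx =>
    rw [Set.mem_singleton_iff] at hx
    rw [hx]
    exact mem_adjoin_simple_self k w
  | algebraMap a => exact hle (hfix a.1 fun τ hτ => a.2 ⟨τ, hτ⟩)
  | add x y _ _ hx hy => exact add_mem hx hy
  | inv x _ hx => exact inv_mem hx
  | mul x y _ _ hx hy => exact mul_mem hx hy

end CX.CHI
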