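import Mathlib
import Pool.Agent.Helper9.NS
import Pool.Agent.Helper40.CX.CHI.Defs
import Pool.Agent.Helper40.CX.H21TO.Transfer

/-!
# The transfer of Voisin's property for a character
-/

set_option autoImplicit false
set_option linter.unusedSectionVars false

namespace CX.CHI

open CX.VC CX.VF Function Polynomial
open CX.Pool.Agent.Helper51.EW (Wei Coord WPt aff zeroPt)
open CX.Pool.Agent.Helper21.TO

universe u

variable {k : Type u} [Field k] [IsAlgClosed k] [CX.Good k] {J S : Variety k}
  {cyc : J.Pt → S.Cycles}

/-- The functional on exterior products as a multilinear map. -/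
noncomputable def TM (X : Variety k) {n : ℕ} (Φ : (X.pow n).Pt → ℂ) :
    MultilinearMap ℤ (fun _ : Fin n => X.Cycles) ℂ :=
  (Finsupp.linearCombination ℤ Φ).compMultilinearMap (extM X.Pt n)

lemma TM_apply {X : Variety k} {n : ℕ} (Φ : (X.pow n).Pt → ℂ) (z : Fin n → X.Cycles) :
    TM X Φ z = Finsupp.linearCombination ℤ Φ (extProd z) := rfl

lemma TM_single {X : Variety k} {n : ℕ} (Φ : (X.pow n).Pt → ℂ) (p : Fin n → X.Pt) :
    TM X Φ (fun i => Finsupp.single (p i) 1) = Φ p := by
  rw [TM_apply]
  change Finsupp.linearCombination ℤ Φ (ext' fun j => Finsupp.single (p j) 1) = _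
  rw [ext'_single, Finsupp.linearCombination_single, one_smul]

/-- A factor killed by all functionals kills the exterior product. -/
lemma TM_nul (hconst : ∀ (K : Type u) [Field K] [Algebra k K]
    (hK : IsFunctionField k K) (p : S.Pt), ∃ c : S.Mor K, ∀ v, S.eval hK c v = p) {n : ℕ}
    {Φ : (S.pow n).Pt → ℂ} (hΦ : Kills (S.pow n) Φ) (z : Fin n → S.Cycles) (i : Fin n)
    (hz : Nul S (z i)) : TM S Φ z = 0 := by
  have h1 : TM S Φ z = TM S Φ (update z i 0) := by
    rw [TM_apply, TM_apply]
    refine ext_congr hconst hΦ z (update z i 0) fun j => ?_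
    by_cases hj : j = i
    · subst hj
      rw [update_self, sub_zero]
      exact hz
    · rw [update_of_ne hj, sub_self]
      exact Nul.zero
  rw [h1]
  exact (TM S Φ).map_update_zero z i

lemma alt_apply {n : ℕ} (Φ : (S.pow n).Pt → ℂ) (z : Fin n → S.Cycles) :
    (TM S Φ).alternatization z = ∑ σ : Equiv.Perm (Fin n), ((Equiv.Perm.sign σ : ℤˣ) : ℤ) •
      TM S Φ (fun i => z (σ i)) := by
  rw [MultilinearMap.alternatization_apply]
  refine Finset.sum_congr rfl fun σ _ => ?_
  rw [Units.smul_def]
  rfl

/-- The action on one of the factors. -/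
lemma TM_act {X : Variety k} {n : ℕ} {Φ : (X.pow n).Pt → ℂ} {g : X.Pt → X.Pt} {χ : ℂ}
    (hg : ∀ (p : (X.pow n).Pt) (i : Fin n), Φ (update p i (g (p i))) = χ * Φ p)
    (z : Fin n → X.Cycles) (i : Fin n) :
    TM X Φ (update z i (Finsupp.mapDomain g (z i))) = χ * TM X Φ z := by
  classical
  let f : ∀ _ : Fin n, X.Cycles →ₗ[ℤ] X.Cycles :=
    fun j => if j = i then Finsupp.lmapDomain ℤ ℤ g else LinearMap.id
  have h1 : (TM X Φ).compLinearMap f = χ • TM X Φ := by
    apply Module.Basis.ext_multilinear (fun _ => Finsupp.basisSingleOne)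
    intro v
    simp only [Finsupp.coe_basisSingleOne]
    rw [MultilinearMap.compLinearMap_apply, MultilinearMap.smul_apply]
    have e1 : (fun j => f j (Finsupp.single (v j) 1)) =
        fun j => Finsupp.single (update v i (g (v i)) j) (1 : ℤ) := by
      funext j
      by_cases hj : j = i
      · subst hj
        simp [f]
      · simp [f, hj]
    rw [e1, TM_single, TM_single, hg]
    rfl
  have h2 := congrArg (fun F => F z) h1
  simp only [MultilinearMap.compLinearMap_apply, MultilinearMap.smul_apply, smul_eq_mul] at h2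
  rw [← h2]
  congr 1
  funext j
  by_cases hj : j = i
  · subst hj
    simp [f]
  · simp [f, hj]

private lemma alt_cyc (h : Link J S cyc) {s : J.Pt → J.Pt} {g : S.Pt → S.Pt}
    (heq : ∀ y, Nul S (cyc (s y) - Finsupp.mapDomain g (cyc y))) {χ : ℂ} {n : ℕ}
    (hJ : VoisinChi J s χ n) {Φ : (S.pow n).Pt → ℂ}
    (hΦ : Kills (S.pow n) Φ)
    (hg : ∀ (p : (S.pow n).Pt) (i : Fin n), Φ (update p i (g (p i))) = χ * Φ p)
    (y : Fin n → J.Pt) :
    (TM S Φ).alternatization (fun i => cyc (y i)) = 0 := by
  classical
  have h1 := hJ (fun y : (J.pow n).Pt => Finsupp.linearCombination ℤ Φ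
    (extProd (fun i => cyc (y i)))) (kills_trans h hΦ) (fun p i => by
      change TM S Φ (fun j => cyc (update p i (s (p i)) j)) = χ * TM S Φ (fun j => cyc (p j))
      rw [← TM_act hg (fun j => cyc (p j)) i]
      refine (ext_congr h.constS hΦ _ _ fun j => ?_)
      by_cases hj : j = i
      · subst hj
        rw [update_self, update_self]
        exact heq _
      · rw [update_of_ne hj, update_of_ne hj, sub_self]
        exact Nul.zero) y
  rw [alt_apply, ← h1]
  rfl

private lemma alt_step (h : Link J S cyc) {s : J.Pt → J.Pt} {g : S.Pt → S.Pt}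
    (heq : ∀ y, Nul S (cyc (s y) - Finsupp.mapDomain g (cyc y))) {χ : ℂ} (hχ : χ ≠ 1) {n : ℕ}
    (hJ : VoisinChi J s χ n) {Φ : (S.pow n).Pt → ℂ}
    (hΦ : Kills (S.pow n) Φ)
    (hg : ∀ (p : (S.pow n).Pt) (i : Fin n), Φ (update p i (g (p i))) = χ * Φ p) (j : ℕ) :
    j ≤ n → ∀ z : Fin n → S.Cycles,
      (∀ i : Fin n, j ≤ (i : ℕ) → ∃ y, z i = cyc y) → (TM S Φ).alternatization z = 0 := by
  classical
  induction j with
  | zero =>
    intro _ z hz
    choose y hy using fun i => hz i (Nat.zero_le _)
    have : z = fun i => cyc (y i) := funext hy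
    rw [this]
    exact alt_cyc h heq hJ hΦ hg y
  | succ j ih =>
    intro hj z hz1
    have hjn : j < n := hj
    set i : Fin n := ⟨j, hjn⟩ with hi
    let φ : S.Pt → ℂ := fun x => (TM S Φ).alternatization (update z i (Finsupp.single x 1))
    have hlin : ∀ w : S.Cycles, Finsupp.linearCombination ℤ φ w =
        (TM S Φ).alternatization (update z i w) := by
      intro w
      induction w using Finsupp.induction_linear with
      | zero => rw [map_zero, AlternatingMap.map_update_zero]
      | add a b ha hb => rw [map_add, ha, hb, AlternatingMap.map_update_add]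
      | single x m =>
        rw [Finsupp.linearCombination_single]
        have e : (Finsupp.single x m : S.Cycles) = m • Finsupp.single x 1 := by
          rw [Finsupp.smul_single, smul_eq_mul, mul_one]
        rw [e, AlternatingMap.map_update_smul]
    have hkill : Kills S φ := by
      intro r hr
      rw [hlin, alt_apply]
      refine Finset.sum_eq_zero fun σ _ => ?_
      have hn : Nul S ((fun l => (update z i r) (σ l)) (σ.symm i)) := by
        have e : (fun l => (update z i r) (σ l)) (σ.symm i) = r := by
          change (update z i r) (σ (σ.symm i)) = r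
          rw [Equiv.apply_symm_apply, update_self]
        rw [e]
        exact fun ψ hψ => hψ r hr
      have h5 := TM_nul h.constS hΦ (fun l => (update z i r) (σ l)) (σ.symm i) hn
      rw [h5, smul_zero]
    have hconst := h.const φ hkill (fun y => by
      rw [hlin]
      refine ih (by omega) _ (fun l hl => ?_)
      by_cases hl' : l = i
      · subst hl'
        exact ⟨y, update_self _ _ _⟩
      · rw [update_of_ne hl']
        refine hz1 l ?_
        have : (l : ℕ) ≠ j := fun h' => hl' (Fin.ext h')
        omega)
    have hact : ∀ x, φ (g x) = χ * φ x := by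
      intro x
      change (TM S Φ).alternatization (update z i (Finsupp.single (g x) 1)) =
        χ * (TM S Φ).alternatization (update z i (Finsupp.single x 1))
      rw [alt_apply, alt_apply, Finset.mul_sum]
      refine Finset.sum_congr rfl fun σ _ => ?_
      rw [mul_smul_comm]
      congr 1
      have h1 := TM_act hg (fun l => (update z i (Finsupp.single x 1)) (σ l)) (σ.symm i)
      rw [← h1]
      congr 1
      funext l
      by_cases hl : l = σ.symm i
      · subst hl
        rw [update_self, Equiv.apply_symm_apply, update_self, update_self,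
          Finsupp.mapDomain_single]
      · have hl2 : σ l ≠ i := fun h' => hl (by rw [← h', Equiv.symm_apply_apply])
        rw [update_of_ne hl, update_of_ne hl2, update_of_ne hl2]
    have hzero : ∀ x, φ x = 0 := by
      intro x
      have h1 := hact x
      rw [hconst (g x) x] at h1
      have h2 : (1 - χ) * φ x = 0 := by linear_combination h1
      exact (mul_eq_zero.mp h2).resolve_left (sub_ne_zero.mpr (Ne.symm hχ))
    have h3 : Finsupp.linearCombination ℤ φ (z i) = 0 := by
      rw [Finsupp.linearCombination_apply, Finsupp.sum]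
      exact Finset.sum_eq_zero fun x _ => by rw [hzero, smul_zero]
    rw [hlin, update_eq_self] at h3
    exact h3

/-- The transfer of Voisin's property for a character. -/
theorem transferChi (h : Link J S cyc) {s : J.Pt → J.Pt} {g : S.Pt → S.Pt}
    (heq : ∀ y, Nul S (cyc (s y) - Finsupp.mapDomain g (cyc y))) {χ : ℂ} (hχ : χ ≠ 1) {n : ℕ}
    (hJ : VoisinChi J s χ n) : VoisinChi S g χ n := by
  intro Φ hΦ hg p
  have h1 := alt_step h heq hχ hJ hΦ hg n le_rfl (fun i => Finsupp.single (p i) 1)
    (fun i hi => absurd i.2 (not_lt.2 hi))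
  rw [alt_apply] at h1
  rw [← h1]
  refine Finset.sum_congr rfl fun σ _ => ?_
  rw [TM_single]

end CX.CHI
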