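import Mathlib
import Pool.Agent.Helper9.NS
import Pool.Agent.Helper40.CX.CHI.Equi
import Pool.Agent.Helper40.CX.CHI.TwOf
import Pool.Agent.Helper40.CX.CHI.Transfer
import Pool.Agent.Helper40.CX.CHI.Gal
import Pool.Agent.Helper40.CX.H21TO.Final

/-!
# Cyclic base changes of genus one fibrations: arbitrary projective models
-/

set_option autoImplicit false
set_option linter.unusedSectionVars false

namespace CX.CHI

open CX.VC CX.VF Function Polynomial
open CX.Pool.Agent.Helper51.EW (Wei Coord WPt aff zeroPt)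
open CX.Pool.Agent.Helper21.TO

universe u

section

variable {k : Type u} [Field k] {W : Wei k} {m : ℕ} {L : Type u} [Field L] [Algebra k L]

theorem cA_pull (w : L) : cA (pull W m) w = cA W (w ^ m) := by
  change MvPolynomial.aeval ![1, w] (MvPolynomial.expand m W.A) = MvPolynomial.aeval ![1, w ^ m] W.A
  rw [aeval_expand]
  congr 2
  funext i
  fin_cases i
  · exact one_pow m
  · rfl

theorem cB_pull (w : L) : cB (pull W m) w = cB W (w ^ m) := by
  change MvPolynomial.aeval ![1, w] (MvPolynomial.expand m W.B) = MvPolynomial.aeval ![1, w ^ m] W.B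
  rw [aeval_expand]
  congr 2
  funext i
  fin_cases i
  · exact one_pow m
  · rfl

theorem disc_pull (hm : m ≠ 0) (hΔ : 4 * W.A ^ 3 + 27 * W.B ^ 2 ≠ 0) :
    4 * (pull W m).A ^ 3 + 27 * (pull W m).B ^ 2 ≠ 0 := by
  have h := (MvPolynomial.expand_ne_zero (Nat.pos_of_ne_zero hm)).mpr hΔ
  rw [map_add, map_mul, map_mul, map_pow, map_pow, map_ofNat, map_ofNat] at h
  exact h

end

variable {k : Type u} [Field k] [IsAlgClosed k] [CX.Good k] {W : Wei k} {m : ℕ}
variable {L Ω : Type u} [Field L] [Algebra k L] [Field Ω] [Algebra k Ω] [Algebra L Ω]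
  [IsScalarTower k L Ω]

/-- Voisin's property for the characters of the cyclic base change of a genus one fibration,
given the property for the Weierstrass model, on every projective model on which the group acts
by linear maps. -/
theorem voisinChi_torsor (hm : m ≠ 0) (hΔ : 4 * W.A ^ 3 + 27 * W.B ^ 2 ≠ 0)
    (hmin : Minimal (pull W m)) (T : Torsor W L Ω) {w : L} (hw : w ^ m = T.t) {M : ℕ}
    (ξ : Fin M → Ω) (hξ : ξ ≠ 0)
    (hfix : ∀ σ ∈ T.G, σ (algebraMap L Ω w) = algebraMap L Ω w → ∀ i, σ (ξ i) = ξ i)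
    {σ₀ : Ω ≃ₐ[k] Ω} (hσ₀ : σ₀ ∈ T.G) {γ : k} (hγ : γ ^ m = 1)
    (hσw : σ₀ (algebraMap L Ω w) = algebraMap k Ω γ⁻¹ * algebraMap L Ω w)
    {g : Matrix (Fin M) (Fin M) k} (hlin : ∀ i, σ₀ (ξ i) = mulV g ξ i)
    (hl : Lin g (van k ξ)) {χ : ℂ} (hχ : χ ≠ 1) {n : ℕ}
    (hJ : VoisinChi (pull W m).surface (rot γ hγ hm) χ n) :
    VoisinChi (proj k (van k ξ)) (linPt hl) χ n := by
  classical
  have hL0 : CX.Good L := CX.Good.ext k
  have htw : Transcendental k w := by
    intro h
    apply T.ht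
    rw [← hw]
    exact h.pow m
  have hΔm := disc_pull hm hΔ
  have eA : cA (pull W m) w = cA W T.t := by rw [cA_pull, hw]
  have eB : cB (pull W m) w = cB W T.t := by rw [cB_pull, hw]
  have hdisc : 4 * cA (pull W m) w ^ 3 + 27 * cB (pull W m) w ^ 2 ≠ 0 := disc_ne_zero hΔm htw
  have heqn : T.y ^ 2 = T.x ^ 3 + algebraMap L Ω (cA (pull W m) w) * T.x +
      algebraMap L Ω (cB (pull W m) w) := by
    rw [eA, eB]
    exact T.eqn
  obtain ⟨c, p, q, hc, hg⟩ := exists_num _ _ T.x T.y heqn T.gen ξ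
  obtain ⟨H, hfin, hH1, hH2⟩ := exists_res_subgroup T.G T.finG T.stable
  have hinj : Function.Injective (algebraMap L Ω) := (algebraMap L Ω).injective
  have hne : ∃ i, p i ≠ 0 ∨ q i ≠ 0 := by
    by_contra hcon
    push Not at hcon
    obtain ⟨i, hi⟩ := Function.ne_iff.mp hξ
    have h1 := hg i
    rw [(hcon i).1, (hcon i).2, map_zero, zero_mul, zero_add] at h1
    exact hi ((mul_eq_zero.mp h1).resolve_left hc)
  -- the stabiliser of `w`
  let Hw : Subgroup (L ≃ₐ[k] L) :=
    { carrier := {τ | τ ∈ H ∧ τ w = w}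
      mul_mem' := by
        rintro a b ⟨ha, ha'⟩ ⟨hb, hb'⟩
        refine ⟨mul_mem ha hb, ?_⟩
        change a (b w) = w
        rw [hb', ha']
      one_mem' := ⟨one_mem _, rfl⟩
      inv_mem' := by
        rintro a ⟨ha, ha'⟩
        refine ⟨inv_mem ha, ?_⟩
        change a.symm w = w
        rw [AlgEquiv.symm_apply_eq]
        exact ha'.symm }
  have hHw : Finite Hw := Finite.of_injective
    (fun τ : Hw => (⟨τ.1, τ.2.1⟩ : H)) (fun a b h => Subtype.ext (congrArg (fun x : H => x.1) h))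
  let D : Dat (pull W m) L :=
    { hL := T.hL
      t := w
      ht := htw
      hΔ := hdisc
      H := Hw
      finH := hHw
      fixt := fun τ hτ => hτ.2
      fixed := by
        intro z hz
        refine mem_adjoin_of_stab H hfin (t := T.t) (fun z hz => ?_) hw
          (fun τ hτ hτw => hz τ ⟨hτ, hτw⟩)
        apply T.fixed
        intro σ hσ
        obtain ⟨τ, hτ, h⟩ := hH2 σ hσ
        rw [h, hz τ hτ]
      r := T.r
      hr := by
        rw [eA, eB]
        exact T.hr
      s := T.s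
      hs := T.hs
      M := M
      I := van k ξ
      p := p
      q := q
      ne := hne
      sat := by
        intro K _ _ ι x y h
        exact sat_of p q _ _ T.x T.y T.hx heqn ξ c hg K ι x y h
      tw := by
        rintro τ ⟨hτ, hτw⟩
        obtain ⟨σ, hσ, h⟩ := hH1 τ hτ
        have hfixσ : ∀ i, σ (ξ i) = ξ i := by
          apply hfix σ hσ
          rw [h, hτw]
        rcases T.translation σ hσ with ⟨h1, h2⟩ | ⟨e, f, h0, h1, h2⟩
        · exact ⟨0, tw_of_zero p q _ _ T.x T.y T.hx heqn ξ c hg σ τ h hfixσ h1 h2⟩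
        · have h0' : f ^ 2 = e ^ 3 + cA (pull W m) w * e + cB (pull W m) w := by
            rw [eA, eB]
            exact h0
          exact ⟨_, tw_of_some p q _ _ T.x T.y T.hx heqn ξ c hg σ τ h hfixσ e f
            (nonsingular_of_disc hdisc h0') h1 h2⟩ }
  have hev : ev p q (IsScalarTower.toAlgHom k L Ω) T.x T.y = fun i => c * ξ i := by
    funext i
    rw [hg i]
    rfl
  have hlink : Link (pull W m).surface D.S (cycJ D) := by
    refine link hΔm hmin D (IsScalarTower.toAlgHom k L Ω) T.x T.y heqn ?_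
    intro P m' hP h
    change MvPolynomial.aeval (ev p q (IsScalarTower.toAlgHom k L Ω) T.x T.y) P = 0 at h
    rw [hev, aeval_smul' hP] at h
    exact (mul_eq_zero.mp h).resolve_left (pow_ne_zero _ hc)
  obtain ⟨τ, hτ, hτσ⟩ := hH2 σ₀ hσ₀
  have hτw : τ D.t = algebraMap k L γ⁻¹ * D.t := by
    apply hinj
    rw [← hτσ]
    change σ₀ (algebraMap L Ω w) = algebraMap L Ω (algebraMap k L γ⁻¹ * w)
    rw [hσw, map_mul, ← IsScalarTower.algebraMap_apply]
  obtain ⟨e, he⟩ : ∃ e : EPt D.a D.b, TwG D.p D.q D.a D.b τ g e := by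
    rcases T.translation σ₀ hσ₀ with ⟨h1, h2⟩ | ⟨e, f, h0, h1, h2⟩
    · exact ⟨0, twG_of_zero p q _ _ T.x T.y T.hx heqn ξ c hg σ₀ τ hτσ hlin h1 h2⟩
    · have h0' : f ^ 2 = e ^ 3 + cA (pull W m) w * e + cB (pull W m) w := by
        rw [eA, eB]
        exact h0
      exact ⟨_, twG_of_some p q _ _ T.x T.y T.hx heqn ξ c hg σ₀ τ hτσ hlin e f
        (nonsingular_of_disc hdisc h0') h1 h2⟩
  exact transferChi hlink (fun y => cycJ_rot D hm hγ hτw hl he y) hχ hJ

end CX.CHI
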