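import Mathlib
import Pool.Agent.Helper40.CX.H21TO.Num

/-!
# The constants of the function field of a plane cubic
-/

set_option autoImplicit false

namespace CX.CHI

open IntermediateField Polynomial

/-- The field `F` is algebraically closed in `F (x, y)`, `y ^ 2 = x ^ 3 + a x + b`. -/
theorem mem_of_algebraic {F A : Type} [Field F] [Field A] [Algebra F A] {a b : F} {x y : A}
    (hx : Transcendental F x) (he : y ^ 2 = x ^ 3 + algebraMap F A a * x + algebraMap F A b)
    {z : A} (hz : z ∈ adjoin F {x, y}) (hza : IsAlgebraic F z) : z ∈ Set.range (algebraMap F A) := by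
  -- the field generated by `z`
  have hF1 : Algebra.IsAlgebraic F (adjoin F {z}) := by
    have := adjoin.finiteDimensional (x := z) (K := F) hza.isIntegral
    exact Algebra.IsAlgebraic.of_finite F _
  have hx1 : Transcendental (adjoin F {z}) x := fun h => hx (h.restrictScalars F)
  have hx2 := transcendental_iff.mp hx1
  let z1 : adjoin F {z} := ⟨z, mem_adjoin_simple_self F z⟩
  obtain ⟨r, p, q, hr, h⟩ : ∃ r p q : F[X], aeval x r ≠ 0 ∧
      aeval x r * z = aeval x p + aeval x q * y :=
    CX.Pool.Agent.Helper21.TO.exists_num_one a b x y he hz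
  have hr0 : r ≠ 0 := by
    rintro rfl
    exact hr (map_zero _)
  have hmap : ∀ P : F[X], aeval x (P.map (algebraMap F (adjoin F {z}))) = aeval x P := fun P =>
    aeval_map_algebraMap _ _ _
  -- the polynomial `R`
  let R : (adjoin F {z})[X] := C z1 * r.map (algebraMap F (adjoin F {z})) -
    p.map (algebraMap F (adjoin F {z}))
  have hR : aeval x R = aeval x q * y := by
    change aeval x (C z1 * r.map (algebraMap F (adjoin F {z})) -
      p.map (algebraMap F (adjoin F {z}))) = _
    rw [map_sub, map_mul, aeval_C, hmap, hmap]
    change z * aeval x r - aeval x p = _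
    linear_combination h
  by_cases hq : q = 0
  · have h0 : R = 0 := by
      apply hx2
      rw [hR, hq, map_zero, zero_mul]
    obtain ⟨n, hn⟩ : ∃ n, r.coeff n ≠ 0 := by
      by_contra hcon
      push Not at hcon
      exact hr0 (Polynomial.ext (by simpa using hcon))
    have h1 := congrArg (fun P : (adjoin F {z})[X] => ((P.coeff n : adjoin F {z}) : A)) h0
    simp only [R, coeff_sub, coeff_C_mul, coeff_map, coeff_zero] at h1
    have h2 : z * algebraMap F A (r.coeff n) - algebraMap F A (p.coeff n) = 0 := h1
    refine ⟨p.coeff n / r.coeff n, ?_⟩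
    rw [map_div₀, div_eq_iff ((_root_.map_ne_zero _).mpr hn)]
    linear_combination -h2
  · exfalso
    let q1 : (adjoin F {z})[X] := q.map (algebraMap F (adjoin F {z}))
    let f : (adjoin F {z})[X] := X ^ 3 + C (algebraMap F _ a) * X + C (algebraMap F _ b)
    have hq1 : q1 ≠ 0 := (Polynomial.map_ne_zero_iff (algebraMap F (adjoin F {z})).injective).mpr hq
    have e : f * q1 ^ 2 = R ^ 2 := by
      have h1 : f * q1 ^ 2 - R ^ 2 = 0 := by
        apply hx2
        rw [map_sub, map_mul, map_pow, map_pow, hR]
        have e1 : aeval x f = x ^ 3 + algebraMap F A a * x + algebraMap F A b := by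
          simp only [f, map_add, map_pow, map_mul, aeval_X, aeval_C]
          rfl
        have e2 : aeval x q1 = aeval x q := hmap q
        rw [e1, e2, mul_pow, he]
        ring
      exact sub_eq_zero.mp h1
    have hf : f.natDegree = 3 := by
      simp only [f]
      compute_degree!
    have hf0 : f ≠ 0 := by
      intro h0
      rw [h0, natDegree_zero] at hf
      exact absurd hf (by norm_num)
    have h1 := congrArg natDegree e
    rw [natDegree_mul hf0 (pow_ne_zero 2 hq1), natDegree_pow, natDegree_pow, hf] at h1
    omega

end CX.CHI
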