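import Mathlib

/-!
# Finite Galois extensions inside an algebraically closed field, and the function field of a plane
cubic
-/

set_option autoImplicit false

namespace CX.CHI

open IntermediateField Polynomial

/-- Finitely many separable elements are contained in a finite Galois extension. -/
theorem exists_galois {F A : Type*} [Field F] [Field A] [IsAlgClosed A] [Algebra F A]
    (S : Finset A) (hS : ∀ s ∈ S, IsSeparable F s) :
    ∃ L : IntermediateField F A, FiniteDimensional F L ∧ IsGalois F L ∧ ∀ s ∈ S, s ∈ L := by
  classical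
  let Q : F[X] := ∏ s ∈ S, minpoly F s
  have hQ0 : Q ≠ 0 := Finset.prod_ne_zero_iff.mpr fun s hs => minpoly.ne_zero (hS s hs).isIntegral
  have hQ : (Q.map (algebraMap F A)).Splits := IsAlgClosed.splits _
  have h1 := adjoin_rootSet_isSplittingField hQ
  have hroot : ∀ x ∈ Q.rootSet A, ∃ s ∈ S, aeval x (minpoly F s) = 0 := by
    intro x hx
    have h2 := (mem_rootSet.mp hx).2
    rw [map_prod] at h2
    exact Finset.prod_eq_zero_iff.mp h2
  have hsep : Algebra.IsSeparable F (adjoin F (Q.rootSet A)) := by
    rw [isSeparable_adjoin_iff_isSeparable]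
    intro x hx
    obtain ⟨s, hs, h2⟩ := hroot x hx
    exact (hS s hs).of_dvd (minpoly.dvd F x h2)
  have hnorm : Normal F (adjoin F (Q.rootSet A)) := Normal.of_isSplittingField Q
  refine ⟨adjoin F (Q.rootSet A), IsSplittingField.finiteDimensional _ Q, ⟨⟩, fun s hs => ?_⟩
  apply subset_adjoin
  rw [mem_rootSet]
  refine ⟨hQ0, ?_⟩
  rw [map_prod]
  exact Finset.prod_eq_zero hs (minpoly.aeval F s)

/-- A simple root of a polynomial is separable. -/
theorem isSeparable_of_simple {F A : Type*} [Field F] [Field A] [Algebra F A] {x : A} {p : F[X]}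
    (h0 : aeval x p = 0) (h1 : aeval x (derivative p) ≠ 0) : IsSeparable F x := by
  have hp : p ≠ 0 := by
    rintro rfl
    simp at h1
  have hi : IsIntegral F x := (show IsAlgebraic F x from ⟨p, hp, h0⟩).isIntegral
  obtain ⟨q, hq⟩ := minpoly.dvd F x h0
  have h2 : derivative (minpoly F x) ≠ 0 := by
    intro h2
    apply h1
    rw [hq, derivative_mul, h2, zero_mul, zero_add, map_mul, minpoly.aeval, zero_mul]
  exact (separable_iff_derivative_ne_zero (minpoly.irreducible hi)).mpr h2

end CX.CHI
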