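import Mathlib
import Pool.Agent.Helper40.CX.CHI.Split
import Pool.Agent.Helper40.CX.CHI.Reg
import Pool.Agent.Helper40.CX.CHI.Final

/-!
# The trivial torsor

The splitting data of the surface `y ^ 2 = x ^ 3 + A (1, u) x + B (1, u)` inside an algebraically
closed field `A`: a finite Galois extension `L` of `O (u)`, and `E = L (x, y)` with the group of the
automorphisms which fix `x`, `y` and `u`.
-/

set_option autoImplicit false
set_option linter.unusedSectionVars false

namespace CX.CHI

open IntermediateField CX.VC CX.Pool.Agent.Helper21.TO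
open CX.Pool.Agent.Helper51.EW (Wei)

section restrict

variable {O A : Type} [Field O] [Field A] [Algebra O A]

/-- The restriction of an endomorphism. -/
def resHom {F : Type} [Field F] [Algebra F A] [Algebra O F] [IsScalarTower O F A]
    (E : IntermediateField F A) (θ : A →ₐ[O] A) (h : ∀ z ∈ E, θ z ∈ E) : E →ₐ[O] E where
  toFun z := ⟨θ z, h z z.2⟩
  map_one' := Subtype.ext (map_one θ)
  map_mul' a b := Subtype.ext (map_mul θ (a : A) (b : A))
  map_zero' := Subtype.ext (map_zero θ)
  map_add' a b := Subtype.ext (map_add θ (a : A) (b : A))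
  commutes' c := Subtype.ext (θ.commutes c)

/-- The restriction of an automorphism. -/
def resEquiv {F : Type} [Field F] [Algebra F A] [Algebra O F] [IsScalarTower O F A]
    (E : IntermediateField F A) (θ : A ≃ₐ[O] A) (h : ∀ z ∈ E, θ z ∈ E)
    (h' : ∀ z ∈ E, θ.symm z ∈ E) : E ≃ₐ[O] E :=
  AlgEquiv.ofAlgHom (resHom E (θ : A →ₐ[O] A) h) (resHom E (θ.symm : A →ₐ[O] A) h')
    (AlgHom.ext fun z => Subtype.ext (θ.apply_symm_apply z))
    (AlgHom.ext fun z => Subtype.ext (θ.symm_apply_apply z))

end restrict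

section setup

variable {O A : Type} [Field O] [Field A] [Algebra O A] {u x y : A}

/-- An automorphism which fixes `u` fixes the field generated by `u`. -/
theorem fix_adjoin {θ : A →+* A} (hO : ∀ c : O, θ (algebraMap O A c) = algebraMap O A c)
    (hu : θ u = u) {z : A} (hz : z ∈ adjoin O {u}) : θ z = z := by
  induction hz using adjoin_induction with
  | mem x hx =>
    rw [Set.mem_singleton_iff] at hx
    rw [hx, hu]
  | algebraMap c => exact hO c
  | add x y _ _ hx hy => rw [map_add, hx, hy]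
  | inv x _ hx => rw [map_inv₀, hx]
  | mul x y _ _ hx hy => rw [map_mul, hx, hy]

variable (L : IntermediateField (adjoin O {u}) A)

theorem map_mem [Normal (adjoin O {u}) L] (θ : A ≃ₐ[O] A) (hu : θ u = u) {z : A} (hz : z ∈ L) :
    θ z ∈ L := by
  let θ0 : A →ₐ[adjoin O {u}] A :=
    { (θ : A →+* A) with
      commutes' := fun c => fix_adjoin (θ := (θ : A →+* A)) (fun c => θ.commutes c) hu c.2 }
  have h1 : (θ0.comp L.val).fieldRange = L := AlgHom.fieldRange_of_normal _
  rw [← h1]
  exact ⟨⟨z, hz⟩, rfl⟩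

theorem map_mem_adjoin [Normal (adjoin O {u}) L] (θ : A ≃ₐ[O] A) (hu : θ u = u) (hx : θ x = x)
    (hy : θ y = y) : ∀ z ∈ adjoin L {x, y}, θ z ∈ adjoin L {x, y} := by
  intro z hz
  induction hz using adjoin_induction with
  | mem z hz =>
    rcases hz with rfl | hz
    · rw [hx]
      exact subset_adjoin _ _ (Set.mem_insert _ _)
    · rw [Set.mem_singleton_iff] at hz
      rw [hz, hy]
      exact subset_adjoin _ _ (Set.mem_insert_of_mem _ rfl)
  | algebraMap c =>
    exact (adjoin L {x, y}).algebraMap_mem ⟨θ c, map_mem L θ hu c.2⟩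
  | add x y _ _ hx hy => rw [map_add]; exact add_mem hx hy
  | inv x _ hx => rw [map_inv₀]; exact inv_mem hx
  | mul x y _ _ hx hy => rw [map_mul]; exact mul_mem hx hy

/-- Two automorphisms which agree on `L`, `x` and `y` are equal. -/
theorem eq_of_agree {σ τ : adjoin L {x, y} →+* A}
    (hL : ∀ z : L, σ (algebraMap L (adjoin L {x, y}) z) = τ (algebraMap L (adjoin L {x, y}) z))
    (hx : σ ⟨x, subset_adjoin _ _ (Set.mem_insert _ _)⟩ =
      τ ⟨x, subset_adjoin _ _ (Set.mem_insert _ _)⟩)
    (hy : σ ⟨y, subset_adjoin _ _ (Set.mem_insert_of_mem _ rfl)⟩ =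
      τ ⟨y, subset_adjoin _ _ (Set.mem_insert_of_mem _ rfl)⟩) (z : adjoin L {x, y}) :
    σ z = τ z := by
  obtain ⟨z, hz⟩ := z
  induction hz using adjoin_induction with
  | mem z hz =>
    rcases id hz with h | h
    · subst h
      exact hx
    · rw [Set.mem_singleton_iff] at h
      subst h
      exact hy
  | algebraMap c => exact hL c
  | add a b ha hb iha ihb =>
    have e : (⟨a + b, add_mem ha hb⟩ : adjoin L {x, y}) = ⟨a, ha⟩ + ⟨b, hb⟩ := rfl
    rw [e, map_add, map_add, iha, ihb]
  | inv a ha iha =>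
    have e : (⟨a⁻¹, inv_mem ha⟩ : adjoin L {x, y}) = ⟨a, ha⟩⁻¹ := rfl
    rw [e, map_inv₀, map_inv₀, iha]
  | mul a b ha hb iha ihb =>
    have e : (⟨a * b, mul_mem ha hb⟩ : adjoin L {x, y}) = ⟨a, ha⟩ * ⟨b, hb⟩ := rfl
    rw [e, map_mul, map_mul, iha, ihb]

end setup

end CX.CHI
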