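import Mathlib
import Pool.Agent.Helper40.CX.CHI.Triv

/-!
# The trivial torsor: construction
-/

set_option autoImplicit false
set_option linter.unusedSectionVars false

namespace CX.CHI

open IntermediateField CX.VC CX.VF CX.Pool.Agent.Helper21.TO
open CX.Pool.Agent.Helper51.EW (Wei)

/-- An intermediate field and a field of constants. -/
instance instTowerIntermediate {O F A : Type} [Field O] [Field F] [Field A] [Algebra O F]
    [Algebra F A] [Algebra O A] [IsScalarTower O F A] (E : IntermediateField F A) :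
    IsScalarTower O E A :=
  IsScalarTower.of_algebraMap_eq fun _ => rfl

section setup

variable {O A : Type} [Field O] [Field A] [Algebra O A] {u x y : A}

theorem ff_adjoin (hu : Transcendental O u) : IsFunctionField O (adjoin O {u}) := by
  refine ⟨AdjoinSimple.gen O u, ?_, ?_⟩
  · have h1 : algebraMap (adjoin O {u}) A (AdjoinSimple.gen O u) = u := rfl
    rw [← transcendental_algebraMap_iff (R := O) (algebraMap (adjoin O {u}) A).injective, h1]
    exact hu
  · have h1 : adjoin O {AdjoinSimple.gen O u} = ⊤ := by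
      apply lift_injective (adjoin O {u})
      rw [lift_adjoin, lift_top, Set.image_singleton]
      rfl
    rw [h1]
    refine Module.Finite.of_surjective (R := (⊤ : IntermediateField O (adjoin O {u})))
      (M := (⊤ : IntermediateField O (adjoin O {u})))
      (Algebra.linearMap (⊤ : IntermediateField O (adjoin O {u})) (adjoin O {u})) ?_
    intro z
    exact ⟨⟨z, IntermediateField.mem_top⟩, rfl⟩

variable (L : IntermediateField (adjoin O {u}) A)

/-- The coordinate of the projective line. -/
def tL : L := algebraMap (adjoin O {u}) L (AdjoinSimple.gen O u)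

theorem tL_val : ((tL L : L) : A) = u := rfl

theorem val_aeval (F : MvPolynomial (Fin 2) O) :
    ((MvPolynomial.aeval ![1, tL L] F : L) : A) = MvPolynomial.aeval ![1, u] F := by
  have h := MvPolynomial.comp_aeval_apply (R := O) (![1, tL L] : Fin 2 → L)
    (IsScalarTower.toAlgHom O L A) F
  have e : (fun i => (IsScalarTower.toAlgHom O L A) ((![1, tL L] : Fin 2 → L) i)) = ![1, u] := by
    funext i
    fin_cases i
    · simp
    · rfl
  rw [e] at h
  exact h

/-- The generic point. -/
def xE : adjoin L {x, y} := ⟨x, subset_adjoin _ _ (Set.mem_insert _ _)⟩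

/-- The second coordinate of the generic point. -/
def yE : adjoin L {x, y} := ⟨y, subset_adjoin _ _ (Set.mem_insert_of_mem _ rfl)⟩

/-- The group. -/
def grp : Subgroup (adjoin L {x, y} ≃ₐ[O] adjoin L {x, y}) where
  carrier := {σ | σ (xE L) = xE L ∧ σ (yE L) = yE L ∧
    σ (algebraMap L _ (tL L)) = algebraMap L _ (tL L)}
  mul_mem' := by
    rintro a b ⟨h1, h2, h3⟩ ⟨h1', h2', h3'⟩
    refine ⟨?_, ?_, ?_⟩
    · change a (b _) = _
      rw [h1', h1]
    · change a (b _) = _
      rw [h2', h2]
    · change a (b _) = _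
      rw [h3', h3]
  one_mem' := ⟨rfl, rfl, rfl⟩
  inv_mem' := by
    rintro a ⟨h1, h2, h3⟩
    refine ⟨?_, ?_, ?_⟩
    · change a.symm _ = _
      rw [AlgEquiv.symm_apply_eq]
      exact h1.symm
    · change a.symm _ = _
      rw [AlgEquiv.symm_apply_eq]
      exact h2.symm
    · change a.symm _ = _
      rw [AlgEquiv.symm_apply_eq]
      exact h3.symm

/-- The restriction to `L` of an element of the group. -/
def resL {σ : adjoin L {x, y} ≃ₐ[O] adjoin L {x, y}} (hσ : σ ∈ grp L (x := x) (y := y)) :
    L →ₐ[adjoin O {u}] A where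
  toFun z := ((σ (algebraMap L (adjoin L {x, y}) z) : adjoin L {x, y}) : A)
  map_one' := by rw [map_one, map_one]; rfl
  map_mul' a b := by rw [map_mul, map_mul]; rfl
  map_zero' := by rw [map_zero, map_zero]; rfl
  map_add' a b := by rw [map_add, map_add]; rfl
  commutes' c := by
    obtain ⟨c, hc⟩ := c
    have key : ∀ (c : A) (hc : c ∈ adjoin O {u}),
        ((σ (algebraMap L (adjoin L {x, y}) (algebraMap (adjoin O {u}) L ⟨c, hc⟩)) :
          adjoin L {x, y}) : A) = c := by
      intro c hc
      induction hc using adjoin_induction with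
      | mem z hz =>
        rw [Set.mem_singleton_iff] at hz
        subst hz
        exact congrArg Subtype.val hσ.2.2
      | algebraMap c =>
        have e : algebraMap L (adjoin L {x, y}) (algebraMap (adjoin O {u}) L
            (⟨algebraMap O A c, (adjoin O {u}).algebraMap_mem c⟩ : adjoin O {u})) =
            algebraMap O (adjoin L {x, y}) c := rfl
        rw [e, AlgEquiv.commutes]
        rfl
      | add a b ha hb iha ihb =>
        have e : (⟨a + b, add_mem ha hb⟩ : adjoin O {u}) = ⟨a, ha⟩ + ⟨b, hb⟩ := rfl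
        rw [e, map_add, map_add, map_add]
        change _ + _ = _
        exact congrArg₂ (· + ·) iha ihb
      | inv a ha iha =>
        have e : (⟨a⁻¹, inv_mem ha⟩ : adjoin O {u}) = ⟨a, ha⟩⁻¹ := rfl
        rw [e, map_inv₀, map_inv₀, map_inv₀]
        exact congrArg (·⁻¹) iha
      | mul a b ha hb iha ihb =>
        have e : (⟨a * b, mul_mem ha hb⟩ : adjoin O {u}) = ⟨a, ha⟩ * ⟨b, hb⟩ := rfl
        rw [e, map_mul, map_mul, map_mul]
        exact congrArg₂ (· * ·) iha ihb
    exact key c hc

theorem resL_apply {σ : adjoin L {x, y} ≃ₐ[O] adjoin L {x, y}} (hσ : σ ∈ grp L (x := x) (y := y))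
    (z : L) : resL L hσ z = ((σ (algebraMap L (adjoin L {x, y}) z) : adjoin L {x, y}) : A) := rfl

theorem finite_grp [FiniteDimensional (adjoin O {u}) L] : Finite (grp L (x := x) (y := y)) := by
  have h1 : Finite (L →ₐ[adjoin O {u}] A) := Finite.of_fintype _
  refine Finite.of_injective (fun σ : grp L (x := x) (y := y) => resL L σ.2) fun σ τ h => ?_
  apply Subtype.ext
  apply AlgEquiv.ext
  intro z
  apply Subtype.ext
  have h2 := eq_of_agree L (x := x) (y := y)
    (σ := ((adjoin L {x, y}).val : adjoin L {x, y} →+* A).comp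
      ((σ : adjoin L {x, y} ≃ₐ[O] adjoin L {x, y}) : adjoin L {x, y} →+* adjoin L {x, y}))
    (τ := ((adjoin L {x, y}).val : adjoin L {x, y} →+* A).comp
      ((τ : adjoin L {x, y} ≃ₐ[O] adjoin L {x, y}) : adjoin L {x, y} →+* adjoin L {x, y}))
    (fun z => DFunLike.congr_fun h z)
    ((congrArg Subtype.val σ.2.1).trans (congrArg Subtype.val τ.2.1).symm)
    ((congrArg Subtype.val σ.2.2.1).trans (congrArg Subtype.val τ.2.2.1).symm) z
  exact h2

theorem stable_grp [Normal (adjoin O {u}) L] {σ : adjoin L {x, y} ≃ₐ[O] adjoin L {x, y}}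
    (hσ : σ ∈ grp L (x := x) (y := y)) (z : L) :
    σ (algebraMap L _ z) ∈ Set.range (algebraMap L (adjoin L {x, y})) := by
  have h1 : (resL L hσ).fieldRange = L := AlgHom.fieldRange_of_normal _
  have h2 : ((σ (algebraMap L (adjoin L {x, y}) z) : adjoin L {x, y}) : A) ∈ L :=
    h1.le ⟨z, rfl⟩
  exact ⟨⟨_, h2⟩, Subtype.ext rfl⟩

/-- Every automorphism of `A` which fixes `u`, `x`, `y` gives an element of the group. -/
theorem exists_res [Normal (adjoin O {u}) L] (θ : A ≃ₐ[O] A) (hu : θ u = u) (hx : θ x = x)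
    (hy : θ y = y) : ∃ σ ∈ grp L (x := x) (y := y), ∀ z, ((σ z : adjoin L {x, y}) : A) = θ z := by
  have h : ∀ {z : A}, θ z = z → θ.symm z = z := by
    intro z hz
    rw [AlgEquiv.symm_apply_eq]
    exact hz.symm
  exact ⟨resEquiv (adjoin L {x, y}) θ (map_mem_adjoin L θ hu hx hy)
    (map_mem_adjoin L θ.symm (h hu) (h hx) (h hy)),
    ⟨Subtype.ext hx, Subtype.ext hy, Subtype.ext hu⟩, fun z => rfl⟩

/-- The elements of `L` fixed by the group. -/
theorem fixed_grp [CX.Good O] [IsAlgClosed A] [IsGalois (adjoin O {u}) L] {W : Wei O}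
    (hx : Transcendental (adjoin O {u}) x)
    (heq : y ^ 2 = x ^ 3 + MvPolynomial.aeval ![1, u] W.A * x + MvPolynomial.aeval ![1, u] W.B)
    (halg : Algebra.IsAlgebraic (adjoin (adjoin O {u}) {x, y}) A) (z : L)
    (hz : ∀ σ ∈ grp L (x := x) (y := y), σ (algebraMap L _ z) = algebraMap L _ z) :
    z ∈ adjoin O {tL L} := by
  have hcl : IsAlgClosure (adjoin (adjoin O {u}) {x, y}) A := ⟨inferInstance, halg⟩
  have hsep0 : IsSeparable (adjoin O {u}) (z : A) := by
    have h1 : IsSeparable (adjoin O {u}) z := Algebra.IsSeparable.isSeparable _ z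
    have h2 : minpoly (adjoin O {u}) (z : A) = minpoly (adjoin O {u}) z :=
      minpoly.algebraMap_eq (algebraMap L A).injective z
    unfold IsSeparable at h1 ⊢
    rw [h2]
    exact h1
  have hsep : IsSeparable (adjoin (adjoin O {u}) {x, y}) (z : A) := hsep0.tower_top _
  have h1 : (z : A) ∈ adjoin (adjoin O {u}) {x, y} := by
    by_contra hcon
    have h2 : (z : A) ∉ (⊥ : Subalgebra (adjoin (adjoin O {u}) {x, y}) A) := by
      intro h
      obtain ⟨c, hc⟩ := Algebra.mem_bot.mp h
      apply hcon
      rw [← hc]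
      exact c.2
    obtain ⟨z2, hne, hconj⟩ := (notMem_iff_exists_ne_and_isConjRoot hsep
      (IsAlgClosed.splits _)).mp h2
    obtain ⟨θ, hθ⟩ := isConjRoot_iff_exists_algEquiv.mp hconj.symm
    have hfix : ∀ c ∈ adjoin (adjoin O {u}) {x, y}, θ c = c := fun c hc => θ.commutes ⟨c, hc⟩
    obtain ⟨σ, hσ, hσz⟩ := exists_res L (θ.restrictScalars O)
      (hfix u ((adjoin (adjoin O {u}) {x, y}).algebraMap_mem (AdjoinSimple.gen O u)))
      (hfix x (subset_adjoin _ _ (Set.mem_insert _ _)))
      (hfix y (subset_adjoin _ _ (Set.mem_insert_of_mem _ rfl)))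
    have h3 := congrArg Subtype.val (hz σ hσ)
    rw [hσz] at h3
    have h4 : θ (z : A) = z := h3
    rw [hθ] at h4
    exact hne h4.symm
  have hF : ∀ F : MvPolynomial (Fin 2) O, ∃ c : adjoin O {u}, algebraMap (adjoin O {u}) A c =
      MvPolynomial.aeval ![1, u] F := by
    intro F
    refine ⟨MvPolynomial.aeval ![1, AdjoinSimple.gen O u] F, ?_⟩
    have h := MvPolynomial.comp_aeval_apply (R := O)
      (![1, AdjoinSimple.gen O u] : Fin 2 → adjoin O {u})
      (IsScalarTower.toAlgHom O (adjoin O {u}) A) F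
    have e : (fun i => (IsScalarTower.toAlgHom O (adjoin O {u}) A)
        ((![1, AdjoinSimple.gen O u] : Fin 2 → adjoin O {u}) i)) = ![1, u] := by
      funext i
      fin_cases i
      · simp
      · rfl
    rw [e] at h
    exact h
  obtain ⟨a, ha⟩ := hF W.A
  obtain ⟨b, hb⟩ := hF W.B
  rw [← ha, ← hb] at heq
  obtain ⟨c, hc⟩ := mem_of_algebraic hx heq h1 hsep0.isIntegral.isAlgebraic
  have h5 : (z : A) ∈ adjoin O {u} := by
    rw [← hc]
    exact c.2
  have h6 : (adjoin O {tL L}).map (IsScalarTower.toAlgHom O L A) = adjoin O {u} := by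
    rw [adjoin_map, Set.image_singleton]
    rfl
  obtain ⟨z', hz', hzz⟩ := h6.ge h5
  have h7 : z' = z := (algebraMap L A).injective hzz
  rw [← h7]
  exact hz'

end setup

/-- The trivial torsor. -/
noncomputable def trivT {O A : Type} [Field O] [IsAlgClosed O] [CX.Good O] [Field A]
    [IsAlgClosed A] [Algebra O A] {u x y : A} (L : IntermediateField (adjoin O {u}) A)
    [FiniteDimensional (adjoin O {u}) L] [IsGalois (adjoin O {u}) L] {W : Wei O}
    (hu : Transcendental O u) (hx : Transcendental (adjoin O {u}) x)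
    (heq : y ^ 2 = x ^ 3 + MvPolynomial.aeval ![1, u] W.A * x + MvPolynomial.aeval ![1, u] W.B)
    (halg : Algebra.IsAlgebraic (adjoin (adjoin O {u}) {x, y}) A)
    (r : Fin 3 → L) (hr : (Polynomial.X ^ 3 + Polynomial.C (MvPolynomial.aeval ![1, tL L] W.A) *
      Polynomial.X + Polynomial.C (MvPolynomial.aeval ![1, tL L] W.B) : Polynomial L) =
        ∏ i, (Polynomial.X - Polynomial.C (r i)))
    (s : Fin 3 → L) (hs : ∀ i, s i ^ 2 = r (i + 1) - r (i + 2)) :
    Torsor W L (adjoin L {x, y}) where
  hL := ff_ext (F := adjoin O {u}) (ff_adjoin hu)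
  t := tL L
  ht := by
    rw [← transcendental_algebraMap_iff (R := O) (algebraMap L A).injective]
    exact hu
  x := xE L
  y := yE L
  hx := by
    rw [← transcendental_algebraMap_iff (R := L) (algebraMap (adjoin L {x, y}) A).injective]
    exact fun h => hx (h.restrictScalars (adjoin O {u}))
  eqn := by
    apply Subtype.ext
    have h1 := val_aeval L W.A
    have h2 := val_aeval L W.B
    change y ^ 2 = x ^ 3 + ((MvPolynomial.aeval ![1, tL L] W.A : L) : A) * x +
      ((MvPolynomial.aeval ![1, tL L] W.B : L) : A)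
    rw [h1, h2]
    exact heq
  gen := by
    apply lift_injective (adjoin L {x, y})
    rw [lift_adjoin, lift_top, Set.image_pair]
    rfl
  G := grp L
  finG := finite_grp L
  stable := fun σ hσ z => stable_grp L hσ z
  fixt := fun σ hσ => hσ.2.2
  fixed := fixed_grp L hx heq halg
  translation := fun σ hσ => Or.inl ⟨hσ.1, hσ.2.1⟩
  r := r
  hr := hr
  s := s
  hs := hs

end CX.CHI
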