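import Mathlib
import Pool.Agent.Helper40.CX.CHI.Triv2

/-!
# The splitting data of the field `O (x, y, w)`, `y ^ 2 = x ^ 3 + A (1, w ^ m) x + B (1, w ^ m)`
-/

set_option autoImplicit false
set_option linter.unusedSectionVars false

namespace CX.CHI

open IntermediateField CX.VC CX.VF CX.Pool.Agent.Helper21.TO
open CX.Pool.Agent.Helper51.EW (Wei)
open scoped IntermediateField.algebraAdjoinAdjoin

/-- Three roots of a cubic polynomial. -/
theorem exists_three {A : Type} [Field A] [IsAlgClosed A] (a b : A) :
    ∃ r : Fin 3 → A, (Polynomial.X ^ 3 + Polynomial.C a * Polynomial.X + Polynomial.C b :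
      Polynomial A) = ∏ i, (Polynomial.X - Polynomial.C (r i)) := by
  set p : Polynomial A := Polynomial.X ^ 3 + Polynomial.C a * Polynomial.X + Polynomial.C b with hp
  have hd : p.natDegree = 3 := by
    rw [hp]
    compute_degree!
  have hm : p.Monic := by
    rw [hp]
    monicity!
  have hs : p.Splits := IsAlgClosed.splits p
  have hc : p.roots.card = 3 := by rw [← hd]; exact hs.natDegree_eq_card_roots.symm
  obtain ⟨r0, r1, r2, h⟩ := Multiset.card_eq_three.mp hc
  refine ⟨![r0, r1, r2], ?_⟩
  have h1 := hs.eq_prod_roots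
  rw [hm.leadingCoeff, map_one, one_mul, h] at h1
  rw [h1, Fin.prod_univ_three]
  simp [mul_assoc]

section

variable {O M : Type} [Field O] [IsAlgClosed O] [CX.Good O] [Field M] [Algebra O M] {W : Wei O}
  {m : ℕ} {x y w : M}

theorem triv_data (hmO : (m : O) ≠ 0) (hΔ : 4 * W.A ^ 3 + 27 * W.B ^ 2 ≠ 0)
    (hxw : AlgebraicIndependent O ![x, w])
    (heq : y ^ 2 = x ^ 3 + MvPolynomial.aeval ![1, w ^ m] W.A * x +
      MvPolynomial.aeval ![1, w ^ m] W.B)
    (hgen : adjoin O {x, y, w} = ⊤) {ζ : O} (hζ : ζ ^ m = 1) (s : M ≃ₐ[O] M) (hsx : s x = x)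
    (hsy : s y = y) (hsw : s w = algebraMap O M ζ * w) :
    ∃ (L E : Type) (_ : Field L) (_ : Field E) (_ : Algebra O L) (_ : Algebra O E)
      (_ : Algebra L E) (_ : IsScalarTower O L E) (T : Torsor W L E) (w0 : L) (f : M →ₐ[O] E)
      (σ₀ : E ≃ₐ[O] E), w0 ^ m = T.t ∧
      (∀ z, ∀ σ ∈ T.G, σ (algebraMap L E w0) = algebraMap L E w0 → σ (f z) = f z) ∧
      σ₀ ∈ T.G ∧ σ₀ (algebraMap L E w0) = algebraMap O E ζ * algebraMap L E w0 ∧
      ∀ z, f (s z) = σ₀ (f z) := by
  classical
  have hm : m ≠ 0 := by
    rintro rfl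
    exact hmO Nat.cast_zero
  let A := AlgebraicClosure M
  have hA : CX.Good A := CX.Good.ext O
  let ι : M →ₐ[O] A := IsScalarTower.toAlgHom O M A
  have hι : Function.Injective ι := (algebraMap M A).injective
  obtain ⟨x', hx'⟩ : ∃ x', x' = ι x := ⟨_, rfl⟩
  obtain ⟨y', hy'⟩ : ∃ y', y' = ι y := ⟨_, rfl⟩
  obtain ⟨w', hw'⟩ : ∃ w', w' = ι w := ⟨_, rfl⟩
  obtain ⟨u, hu'⟩ : ∃ u, u = w' ^ m := ⟨_, rfl⟩
  have hind : AlgebraicIndependent O ![x', w'] := by
    have h1 := hxw.map' hι
    have e : (ι ∘ ![x, w]) = ![x', w'] := by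
      funext i
      fin_cases i
      · exact hx'.symm
      · exact hw'.symm
    rwa [e] at h1
  have htw : Transcendental O w' := hind.transcendental 1
  have hu : Transcendental O u := by
    intro h
    apply htw
    rw [hu'] at h
    exact h.of_pow (Nat.pos_of_ne_zero hm)
  have hw0 : w' ≠ 0 := by
    rintro h
    rw [h] at htw
    exact htw isAlgebraic_zero
  have hxw' : Transcendental (adjoin O {w'}) x' := by
    intro h
    have h1 := hind.transcendental_adjoin (s := {1}) (i := 0) (by simp)
    have e : (![x', w'] '' {1} : Set A) = {w'} := by simp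
    rw [e] at h1
    exact h1 ((IsFractionRing.isAlgebraic_iff (Algebra.adjoin O {w'}) (adjoin O {w'}) A).mpr h)
  have hxu : Transcendental (adjoin O {u}) x' := by
    intro h
    apply hxw'
    have hle : adjoin O {u} ≤ adjoin O {w'} := by
      rw [adjoin_simple_le_iff, hu']
      exact pow_mem (mem_adjoin_simple_self O w') m
    exact h.ringHom_of_comp_eq (inclusion hle : adjoin O {u} →+* adjoin O {w'}) (RingHom.id A)
      (inclusion hle).toRingHom.injective rfl
  have hFv : ∀ F : MvPolynomial (Fin 2) O, ι (MvPolynomial.aeval ![1, w ^ m] F) =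
      MvPolynomial.aeval ![1, u] F := by
    intro F
    have h := MvPolynomial.comp_aeval_apply (R := O) (![1, w ^ m] : Fin 2 → M) ι F
    have e : (fun i => ι ((![1, w ^ m] : Fin 2 → M) i)) = ![1, u] := by
      funext i
      fin_cases i
      · exact map_one ι
      · change ι (w ^ m) = u
        rw [map_pow, hu', hw']
    rw [e] at h
    exact h
  have heq' : y' ^ 2 = x' ^ 3 + MvPolynomial.aeval ![1, u] W.A * x' +
      MvPolynomial.aeval ![1, u] W.B := by
    rw [hx', hy', ← map_pow, heq, map_add, map_add, map_mul, map_pow, hFv, hFv]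
  -- the field `A` is algebraic over the function field of the surface over the `u`-line
  have halg : Algebra.IsAlgebraic (adjoin (adjoin O {u}) {x', y'}) A := by
    have hu1 : u ∈ adjoin (adjoin O {u}) {x', y'} :=
      (adjoin (adjoin O {u}) {x', y'}).algebraMap_mem (AdjoinSimple.gen O u)
    have h1 : ∀ z : M, IsAlgebraic (adjoin (adjoin O {u}) {x', y'}) (ι z) := by
      intro z
      have hz : z ∈ adjoin O {x, y, w} := by rw [hgen]; trivial
      induction hz using adjoin_induction with
      | mem z hz =>
        rcases hz with rfl | rfl | hz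
        · have h2 : x' ∈ adjoin (adjoin O {u}) {x', y'} :=
            subset_adjoin _ _ (Set.mem_insert _ _)
          rw [← hx']
          exact isAlgebraic_algebraMap (⟨x', h2⟩ : adjoin (adjoin O {u}) {x', y'})
        · have h2 : y' ∈ adjoin (adjoin O {u}) {x', y'} :=
            subset_adjoin _ _ (Set.mem_insert_of_mem _ rfl)
          rw [← hy']
          exact isAlgebraic_algebraMap (⟨y', h2⟩ : adjoin (adjoin O {u}) {x', y'})
        · rw [Set.mem_singleton_iff] at hz
          rw [hz, ← hw']
          apply IsAlgebraic.of_pow (Nat.pos_of_ne_zero hm)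
          rw [← hu']
          exact isAlgebraic_algebraMap (⟨u, hu1⟩ : adjoin (adjoin O {u}) {x', y'})
      | algebraMap c =>
        rw [AlgHom.commutes]
        exact isAlgebraic_algebraMap (algebraMap O (adjoin (adjoin O {u}) {x', y'}) c)
      | add a b _ _ ha hb => rw [map_add]; exact ha.add hb
      | inv a _ ha => rw [map_inv₀]; exact IsAlgebraic.inv_iff.mpr ha
      | mul a b _ _ ha hb => rw [map_mul]; exact ha.mul hb
    refine ⟨fun z => ?_⟩
    have hz : IsAlgebraic M z := Algebra.IsAlgebraic.isAlgebraic z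
    let N := algebraicClosure (adjoin (adjoin O {u}) {x', y'}) A
    have hN : ∀ z : M, ι z ∈ N := fun z => mem_algebraicClosure_iff.mpr (h1 z)
    let φ : M →+* N := (ι : M →+* A).codRestrict N hN
    have h2 : IsAlgebraic N z := hz.ringHom_of_comp_eq φ (RingHom.id A) φ.injective rfl
    exact h2.restrictScalars _
  -- the roots
  obtain ⟨r, hr⟩ := exists_three (MvPolynomial.aeval ![1, u] W.A : A)
    (MvPolynomial.aeval ![1, u] W.B)
  have hroot : ∀ i, r i ^ 3 + MvPolynomial.aeval ![1, u] W.A * r i +
      MvPolynomial.aeval ![1, u] W.B = 0 := by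
    intro i
    have h := congrArg (Polynomial.eval (r i)) hr
    rw [Polynomial.eval_prod, Finset.prod_eq_zero (Finset.mem_univ i) (by simp)] at h
    simp only [Polynomial.eval_add, Polynomial.eval_mul, Polynomial.eval_pow, Polynomial.eval_X,
      Polynomial.eval_C] at h
    exact h
  have hsq : ∀ i : Fin 3, ∃ z : A, z ^ 2 = r (i + 1) - r (i + 2) := fun i =>
    IsAlgClosed.exists_pow_nat_eq _ (by norm_num)
  choose q hq using hsq
  -- separability
  have hF0 : ∀ F : MvPolynomial (Fin 2) O, algebraMap (adjoin O {u}) A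
      (MvPolynomial.aeval ![1, AdjoinSimple.gen O u] F) = MvPolynomial.aeval ![1, u] F := by
    intro F
    have h := MvPolynomial.comp_aeval_apply (R := O)
      (![1, AdjoinSimple.gen O u] : Fin 2 → adjoin O {u})
      (IsScalarTower.toAlgHom O (adjoin O {u}) A) F
    have e : (fun i => (IsScalarTower.toAlgHom O (adjoin O {u}) A)
        ((![1, AdjoinSimple.gen O u] : Fin 2 → adjoin O {u}) i)) = ![1, u] := by
      funext i
      fin_cases i
      · simp
      · rfl
    rw [e] at h
    exact h
  have hmA : (m : A) ≠ 0 := by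
    intro h
    apply hmO
    apply (algebraMap O A).injective
    rw [map_natCast, map_zero, h]
  have hsepw : IsSeparable (adjoin O {u}) w' := by
    refine isSeparable_of_simple
      (p := Polynomial.X ^ m - Polynomial.C (AdjoinSimple.gen O u)) ?_ ?_
    · rw [map_sub, map_pow, Polynomial.aeval_X, Polynomial.aeval_C]
      change w' ^ m - u = 0
      rw [hu', sub_self]
    · rw [Polynomial.derivative_sub, Polynomial.derivative_X_pow, Polynomial.derivative_C,
        sub_zero, map_mul, map_pow, Polynomial.aeval_X, Polynomial.aeval_C, map_natCast]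
      exact mul_ne_zero hmA (pow_ne_zero _ hw0)
  have hdisc : 4 * (MvPolynomial.aeval ![1, u] W.A : A) ^ 3 +
      27 * (MvPolynomial.aeval ![1, u] W.B : A) ^ 2 ≠ 0 := disc_ne_zero hΔ hu
  have hsepr : ∀ i, IsSeparable (adjoin O {u}) (r i) := by
    intro i
    refine isSeparable_of_simple (p := Polynomial.X ^ 3 +
      Polynomial.C (MvPolynomial.aeval ![1, AdjoinSimple.gen O u] W.A) * Polynomial.X +
      Polynomial.C (MvPolynomial.aeval ![1, AdjoinSimple.gen O u] W.B)) ?_ ?_
    · simp only [map_add, map_mul, map_pow, Polynomial.aeval_X, Polynomial.aeval_C]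
      rw [hF0, hF0]
      exact hroot i
    · intro h0
      have h1 : 3 * r i ^ 2 + MvPolynomial.aeval ![1, u] W.A = 0 := by
        have h2 : Polynomial.derivative (Polynomial.X ^ 3 +
            Polynomial.C (MvPolynomial.aeval ![1, AdjoinSimple.gen O u] W.A) * Polynomial.X +
            Polynomial.C (MvPolynomial.aeval ![1, AdjoinSimple.gen O u] W.B)) =
            3 * Polynomial.X ^ 2 +
              Polynomial.C (MvPolynomial.aeval ![1, AdjoinSimple.gen O u] W.A) := by
          simp only [Polynomial.derivative_add, Polynomial.derivative_mul, Polynomial.derivative_C,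
            Polynomial.derivative_X_pow, Polynomial.derivative_X, zero_mul, mul_one, add_zero,
            zero_add]
          norm_num
          exact map_ofNat Polynomial.C 3
        rw [h2] at h0
        simp only [map_add, map_mul, map_pow, Polynomial.aeval_X, Polynomial.aeval_C,
          map_ofNat] at h0
        rwa [hF0] at h0
      apply hdisc
      have h3 := hroot i
      have h4 : (MvPolynomial.aeval ![1, u] W.A : A) = -3 * r i ^ 2 := by linear_combination h1
      have h5 : (MvPolynomial.aeval ![1, u] W.B : A) = 2 * r i ^ 3 := by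
        rw [h4] at h3
        linear_combination h3
      rw [h4, h5]
      ring
  have hsepq : ∀ i, IsSeparable (adjoin O {u}) (q i) := by
    intro i
    by_cases hqi : q i = 0
    · rw [hqi, ← map_zero (algebraMap (adjoin O {u}) A)]
      exact isSeparable_algebraMap _
    · have hK1 : Algebra.IsSeparable (adjoin O {u}) (adjoin (adjoin O {u}) (Set.range r)) := by
        rw [isSeparable_adjoin_iff_isSeparable]
        rintro _ ⟨j, rfl⟩
        exact hsepr j
      have hr1 : ∀ j, r j ∈ adjoin (adjoin O {u}) (Set.range r) := fun j =>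
        subset_adjoin _ _ ⟨j, rfl⟩
      have h1 : IsSeparable (adjoin (adjoin O {u}) (Set.range r)) (q i) := by
        refine isSeparable_of_simple (p := Polynomial.X ^ 2 - Polynomial.C
          ((⟨r (i + 1), hr1 _⟩ : adjoin (adjoin O {u}) (Set.range r)) - ⟨r (i + 2), hr1 _⟩)) ?_ ?_
        · rw [map_sub, map_pow, Polynomial.aeval_X, Polynomial.aeval_C]
          change q i ^ 2 - (r (i + 1) - r (i + 2)) = 0
          rw [hq, sub_self]
        · rw [Polynomial.derivative_sub, Polynomial.derivative_X_pow, Polynomial.derivative_C,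
            sub_zero, map_mul, map_pow, Polynomial.aeval_X, Polynomial.aeval_C, map_natCast]
          refine mul_ne_zero ?_ (pow_ne_zero _ hqi)
          have : (2 : A) ≠ 0 := two_ne_zero
          exact_mod_cast this
      exact IsSeparable.of_algebra_isSeparable_of_isSeparable (adjoin O {u}) h1
  obtain ⟨L, hfin, hgal, hL⟩ := exists_galois (F := adjoin O {u}) (A := A)
    (insert w' (Finset.univ.image r ∪ Finset.univ.image q)) (by
      intro z hz
      rw [Finset.mem_insert, Finset.mem_union, Finset.mem_image, Finset.mem_image] at hz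
      rcases hz with rfl | ⟨i, _, rfl⟩ | ⟨i, _, rfl⟩
      · exact hsepw
      · exact hsepr i
      · exact hsepq i)
  have hwL : w' ∈ L := hL _ (Finset.mem_insert_self _ _)
  have hrL : ∀ i, r i ∈ L := fun i => hL _ (Finset.mem_insert_of_mem (Finset.mem_union_left _
    (Finset.mem_image_of_mem _ (Finset.mem_univ i))))
  have hqL : ∀ i, q i ∈ L := fun i => hL _ (Finset.mem_insert_of_mem (Finset.mem_union_right _
    (Finset.mem_image_of_mem _ (Finset.mem_univ i))))
  have hrL2 : (Polynomial.X ^ 3 + Polynomial.C (MvPolynomial.aeval ![1, tL L] W.A) *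
      Polynomial.X + Polynomial.C (MvPolynomial.aeval ![1, tL L] W.B) : Polynomial L) =
        ∏ i, (Polynomial.X - Polynomial.C (⟨r i, hrL i⟩ : L)) := by
    apply Polynomial.map_injective (algebraMap L A) (algebraMap L A).injective
    have e1 : algebraMap L A (MvPolynomial.aeval ![1, tL L] W.A) =
      MvPolynomial.aeval ![1, u] W.A := val_aeval L W.A
    have e2 : algebraMap L A (MvPolynomial.aeval ![1, tL L] W.B) =
      MvPolynomial.aeval ![1, u] W.B := val_aeval L W.B
    simp only [Polynomial.map_add, Polynomial.map_mul, Polynomial.map_pow, Polynomial.map_X,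
      Polynomial.map_C, Polynomial.map_prod, Polynomial.map_sub]
    rw [e1, e2, hr]
    rfl
  let T : Torsor W L (adjoin L {x', y'}) := trivT L hu hxu heq' halg (fun i => ⟨r i, hrL i⟩) hrL2
    (fun i => ⟨q i, hqL i⟩) (fun i => Subtype.ext (hq i))
  have hmem : ∀ z : M, ι z ∈ adjoin L {x', y'} := by
    intro z
    have hz : z ∈ adjoin O {x, y, w} := by rw [hgen]; trivial
    induction hz using adjoin_induction with
    | mem z hz =>
      rcases hz with rfl | rfl | hz
      · rw [← hx']
        exact subset_adjoin _ _ (Set.mem_insert _ _)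
      · rw [← hy']
        exact subset_adjoin _ _ (Set.mem_insert_of_mem _ rfl)
      · rw [Set.mem_singleton_iff] at hz
        rw [hz, ← hw']
        exact (adjoin L {x', y'}).algebraMap_mem ⟨w', hwL⟩
    | algebraMap c =>
      rw [AlgHom.commutes]
      exact (adjoin L {x', y'}).algebraMap_mem (algebraMap O L c)
    | add a b _ _ ha hb => rw [map_add]; exact add_mem ha hb
    | inv a _ ha => rw [map_inv₀]; exact inv_mem ha
    | mul a b _ _ ha hb => rw [map_mul]; exact mul_mem ha hb
  let f : M →ₐ[O] adjoin L {x', y'} :=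
    { toFun := fun z => ⟨ι z, hmem z⟩
      map_one' := Subtype.ext (map_one ι)
      map_mul' := fun a b => Subtype.ext (map_mul ι a b)
      map_zero' := Subtype.ext (map_zero ι)
      map_add' := fun a b => Subtype.ext (map_add ι a b)
      commutes' := fun c => Subtype.ext (ι.commutes c) }
  -- the extension of `s` to the algebraic closure
  let θ0 : A ≃+* A := IsAlgClosure.equivOfEquiv A A (s : M ≃+* M)
  have hθ0 : ∀ z : M, θ0 (ι z) = ι (s z) := fun z =>
    IsAlgClosure.equivOfEquiv_algebraMap A A (s : M ≃+* M) z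
  let θ : A ≃ₐ[O] A := AlgEquiv.ofRingEquiv (f := θ0) (fun c => by
    have h1 : algebraMap O A c = ι (algebraMap O M c) := (ι.commutes c).symm
    rw [h1, hθ0, AlgEquiv.commutes])
  have hθ : ∀ z : M, θ (ι z) = ι (s z) := hθ0
  have hθw : θ w' = algebraMap O A ζ * w' := by
    rw [hw', hθ, hsw, map_mul, AlgHom.commutes]
  obtain ⟨σ₀, hσ₀, hσ₀z⟩ := exists_res L (x := x') (y := y') θ
    (by rw [hu', map_pow, hθw, mul_pow, ← map_pow, hζ, map_one, one_mul])
    (by rw [hx', hθ, hsx]) (by rw [hy', hθ, hsy])
  refine ⟨L, adjoin L {x', y'}, inferInstance, inferInstance, inferInstance, inferInstance,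
    inferInstance, inferInstance, T, ⟨w', hwL⟩, f, σ₀, ?_, ?_, hσ₀, ?_, ?_⟩
  · exact Subtype.ext hu'.symm
  · intro z σ hσ hσw
    have hz : z ∈ adjoin O {x, y, w} := by rw [hgen]; trivial
    induction hz using adjoin_induction with
    | mem z hz =>
      rcases hz with rfl | rfl | hz
      · have e : f z = xE L := Subtype.ext hx'.symm
        rw [e]
        exact hσ.1
      · have e : f z = yE L := Subtype.ext hy'.symm
        rw [e]
        exact hσ.2.1
      · rw [Set.mem_singleton_iff] at hz
        have e : f z = algebraMap L (adjoin L {x', y'}) ⟨w', hwL⟩ := by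
          apply Subtype.ext
          change ι z = w'
          rw [hz, hw']
        rw [e]
        exact hσw
    | algebraMap c => rw [AlgHom.commutes, AlgEquiv.commutes]
    | add a b _ _ ha hb => rw [map_add, map_add, ha, hb]
    | inv a _ ha => rw [map_inv₀, map_inv₀, ha]
    | mul a b _ _ ha hb => rw [map_mul, map_mul, ha, hb]
  · apply Subtype.ext
    rw [hσ₀z]
    exact hθw
  · intro z
    apply Subtype.ext
    rw [hσ₀z]
    exact (hθ z).symm

end

end CX.CHI
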