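import Mathlib
import Pool.Agent.Helper40.CX.CHI.Eqn
import Pool.Agent.Helper40.CX.CHI.Const
import Pool.Agent.Helper98.CHI.Wei
import Pool.Agent.Helper9.CHI.Main
import Pool.Agent.Helper9.CHI.Mini
import Pool.Agent.Helper35.EQ.Bc
import Pool.Agent.Helper35.EQ.Const
import Pool.Agent.Helper43.CH.Model

/-!
# Voisin's property for the characters of the field `O (x, y, w)`,
`y ^ 2 = x ^ 3 + A (w ^ m) x + B (w ^ m)`
-/

set_option autoImplicit false
set_option linter.unusedSectionVars false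

namespace CX.CHI

open IntermediateField CX.VC CX.VF CX.BC CX.Pool.Agent.Helper21.TO
open CX.Pool.Agent.Helper51.EW (Wei)
open _root_.Pool.Agent.Helper9.CHI _root_.Pool.Agent.Helper43.CH

section

variable {O M : Type} [Field O] [IsAlgClosed O] [CX.Good O] [Field M] [Algebra O M] {W : Wei O}
  {m : ℕ} {x y w : M}

theorem disc_of_hj {k : Type} [Field k] [CX.Good k] {W : Wei k}
    (hj : ∀ c d : k, (c ≠ 0 ∨ d ≠ 0) →
      MvPolynomial.C c * W.A ^ 3 ≠ MvPolynomial.C d * W.B ^ 2) :
    4 * W.A ^ 3 + 27 * W.B ^ 2 ≠ 0 := by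
  intro h0
  refine hj 4 (-27) (Or.inl ?_) ?_
  · have h4 : (4 : k) = 2 ^ 2 := by norm_num
    rw [h4]
    exact pow_ne_zero 2 two_ne_zero
  · rw [map_neg, map_ofNat, map_ofNat]
    linear_combination h0

/-- Voisin's property for the characters, for the fields given by an equation. -/
theorem hasVoisinChi_eqn (hN : W.N = 1) (hmO : (m : O) ≠ 0)
    (hj : ∀ c d : O, (c ≠ 0 ∨ d ≠ 0) →
      MvPolynomial.C c * W.A ^ 3 ≠ MvPolynomial.C d * W.B ^ 2)
    (hmin : Minimal (pull W m)) (hxw : AlgebraicIndependent O ![x, w])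
    (heq : y ^ 2 = x ^ 3 + MvPolynomial.aeval ![1, w ^ m] W.A * x +
      MvPolynomial.aeval ![1, w ^ m] W.B)
    (hgen : adjoin O {x, y, w} = ⊤) {ζ : O} (hζ : IsPrimitiveRoot ζ m) (s : M ≃ₐ[O] M)
    (hsx : s x = x) (hsy : s y = y) (hsw : s w = algebraMap O M ζ * w) :
    HasVoisinChi O M s m := by
  have hm : m ≠ 0 := by
    rintro rfl
    exact hmO Nat.cast_zero
  have hΔ := disc_of_hj hj
  obtain ⟨L, E, _, _, _, _, _, _, T, w0, f, σ₀, hw, hf, hσ₀, hσw, hs⟩ :=
    triv_data hmO hΔ hxw heq hgen hζ.pow_eq_one s hsx hsy hsw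
  have hpow : s ^ m = 1 := by
    have hw' : ∀ j : ℕ, (s ^ j) w = algebraMap O M (ζ ^ j) * w := by
      intro j
      induction j with
      | zero => rw [pow_zero, pow_zero, map_one, one_mul]; rfl
      | succ j ih =>
        rw [pow_succ, pow_succ]
        change (s ^ j) (s w) = _
        rw [hsw, map_mul, AlgEquiv.commutes, ih, map_mul]
        ring
    have hx' : ∀ j : ℕ, (s ^ j) x = x ∧ (s ^ j) y = y := by
      intro j
      induction j with
      | zero => exact ⟨rfl, rfl⟩
      | succ j ih =>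
        rw [pow_succ]
        constructor
        · change (s ^ j) (s x) = x
          rw [hsx, ih.1]
        · change (s ^ j) (s y) = y
          rw [hsy, ih.2]
    apply AlgEquiv.ext
    intro z
    change (s ^ m) z = z
    have hz : z ∈ adjoin O {x, y, w} := by rw [hgen]; trivial
    induction hz using adjoin_induction with
    | mem z hz =>
      rcases hz with rfl | rfl | hz
      · exact (hx' m).1
      · exact (hx' m).2
      · rw [Set.mem_singleton_iff] at hz
        rw [hz, hw', hζ.pow_eq_one, map_one, one_mul]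
    | algebraMap c => rw [AlgEquiv.commutes]
    | add a b _ _ ha hb => rw [map_add, ha, hb]
    | inv a _ ha => rw [map_inv₀, ha]
    | mul a b _ _ ha hb => rw [map_mul, ha, hb]
  have hζ' : IsPrimitiveRoot ζ⁻¹ m := hζ.inv
  -- the field does not depend on the character
  refine hasVoisinChi_of hpow hm fun Ω _ _ _ _ => ?_
  have hζΩ : IsPrimitiveRoot (algebraMap O Ω ζ⁻¹) m :=
    hζ'.map_of_injective (algebraMap O Ω).injective
  have hmΩ : (m : Ω) ≠ 0 := by
    have h1 := (_root_.map_ne_zero (algebraMap O Ω)).2 hmO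
    rwa [map_natCast] at h1
  obtain ⟨F, _, _, i, σ, hi, hσi, H⟩ := _root_.Pool.Agent.Helper35.EQ.voisinChi_const' hm hΔ hmin T hw f hf hσ₀
    hζ'.pow_eq_one (by rw [inv_inv]; exact hσw) s hs Ω hζΩ.pow_eq_one
  refine ⟨F, inferInstance, inferInstance, i, σ, hi, hσi, fun N ξ g hξ hg r hr χ _ hχ => ?_⟩
  refine H N ξ hξ g hg r (fun p => ?_) 2 χ hχ ?_
  · obtain ⟨c, -, hc⟩ := hr p
    exact ⟨c, fun l => (hc l).symm⟩
  · exact voisinChi_wei hm hmΩ hζΩ (le_of_eq hN.symm) (by
      change W.N + 1 ≤ 2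
      rw [hN]) (_root_.Pool.Agent.Helper35.EQ.hj_bc hj Ω) hχ

end

end CX.CHI
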