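import Mathlib
import Pool.Agent.Helper40.CX.CHI.EqnV

/-!
# The same, with polynomials in one variable
-/

set_option autoImplicit false
set_option linter.unusedSectionVars false

namespace CX.CHI

open IntermediateField CX.VC CX.VF CX.BC CX.Pool.Agent.Helper21.TO
open CX.Pool.Agent.Helper51.EW (Wei)
open _root_.Pool.Agent.Helper9.CHI _root_.Pool.Agent.Helper43.CH

/-- The binary form of degree `n` with the coefficients of the polynomial `P`. -/
noncomputable def homg {O : Type} [Field O] (n : ℕ) (P : Polynomial O) : MvPolynomial (Fin 2) O :=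
  ∑ i ∈ Finset.range (n + 1), MvPolynomial.monomial (Finsupp.single 0 (n - i) + Finsupp.single 1 i)
    (P.coeff i)

section

variable {O : Type} [Field O]

theorem isHomogeneous_homg (n : ℕ) (P : Polynomial O) : (homg n P).IsHomogeneous n := by
  unfold homg
  refine MvPolynomial.IsHomogeneous.sum _ _ _ fun i hi => ?_
  apply MvPolynomial.isHomogeneous_monomial
  rw [Finset.mem_range] at hi
  rw [map_add, Finsupp.degree_single, Finsupp.degree_single]
  omega

theorem aeval_homg {K : Type} [CommRing K] [Algebra O K] (n : ℕ) (P : Polynomial O)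
    (u : Fin 2 → K) : MvPolynomial.aeval u (homg n P) =
      ∑ i ∈ Finset.range (n + 1), algebraMap O K (P.coeff i) * (u 0 ^ (n - i) * u 1 ^ i) := by
  unfold homg
  rw [map_sum]
  refine Finset.sum_congr rfl fun i _ => ?_
  rw [MvPolynomial.aeval_monomial, Finsupp.prod_add_index' (fun _ => pow_zero _)
    (fun _ _ _ => pow_add _ _ _),
    Finsupp.prod_single_index (h := fun j e => u j ^ e) (pow_zero _),
    Finsupp.prod_single_index (h := fun j e => u j ^ e) (pow_zero _)]

theorem aeval_homg_one {K : Type} [CommRing K] [Algebra O K] {n : ℕ} {P : Polynomial O}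
    (hP : P.natDegree ≤ n) (t : K) :
    MvPolynomial.aeval ![1, t] (homg n P) = Polynomial.aeval t P := by
  rw [aeval_homg, Polynomial.aeval_eq_sum_range' (Nat.lt_succ_of_le hP)]
  refine Finset.sum_congr rfl fun i _ => ?_
  rw [Algebra.smul_def]
  simp

theorem eval_homg_zero (n : ℕ) (P : Polynomial O) :
    MvPolynomial.eval ![1, 0] (homg n P) = P.coeff 0 := by
  have h := aeval_homg (K := O) n P ![1, 0]
  change MvPolynomial.eval ![1, 0] (homg n P) = _ at h
  rw [h, Finset.sum_eq_single 0]
  · simp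
  · intro i _ hi
    simp [hi]
  · intro h
    simp at h

theorem eval_homg_top (n : ℕ) (P : Polynomial O) :
    MvPolynomial.eval ![0, 1] (homg n P) = P.coeff n := by
  have h := aeval_homg (K := O) n P ![0, 1]
  change MvPolynomial.eval ![0, 1] (homg n P) = _ at h
  rw [h, Finset.sum_eq_single n]
  · simp
  · intro i hi hin
    rw [Finset.mem_range] at hi
    have : n - i ≠ 0 := by omega
    simp [this]
  · intro h
    simp at h

/-- The Weierstrass equation with the coefficients `A`, `B`. -/
noncomputable def weiP (A B : Polynomial O) : Wei O where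
  N := 1
  A := homg 4 A
  B := homg 6 B
  hA := isHomogeneous_homg 4 A
  hB := isHomogeneous_homg 6 B

variable {M : Type} [Field M] [Algebra O M] {m : ℕ} {x y w : M}

/-- Voisin's property for the nontrivial characters of the automorphism `w ↦ ζ w` of the field
`O (x, y, w)`, `y ^ 2 = x ^ 3 + A (w ^ m) x + B (w ^ m)`, where `A` and `B` are polynomials of degree
at most `4` and `6`, `A ^ 3` and `B ^ 2` are linearly independent, and `A` and `B` do not both vanish
at `0`, nor at infinity. -/
theorem hasVoisinChi_model [IsAlgClosed O] [CX.Good O] {A B : Polynomial O}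
    (hA : A.natDegree ≤ 4) (hB : B.natDegree ≤ 6)
    (hj : ∀ c d : O, Polynomial.C c * A ^ 3 = Polynomial.C d * B ^ 2 → c = 0 ∧ d = 0)
    (h0 : A.coeff 0 ≠ 0 ∨ B.coeff 0 ≠ 0) (h1 : A.coeff 4 ≠ 0 ∨ B.coeff 6 ≠ 0)
    (hmO : (m : O) ≠ 0) (h : IsModel O m A B x y w) {ζ : O} (hζ : IsPrimitiveRoot ζ m)
    (s : M ≃ₐ[O] M) (hsx : s x = x) (hsy : s y = y) (hsw : s w = algebraMap O M ζ * w) :
    HasVoisinChi O M s m := by
  have hj' : ∀ c d : O, (c ≠ 0 ∨ d ≠ 0) →
      MvPolynomial.C c * (weiP A B).A ^ 3 ≠ MvPolynomial.C d * (weiP A B).B ^ 2 := by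
    intro c d hcd he
    have h2 := congrArg (MvPolynomial.aeval ![1, (Polynomial.X : Polynomial O)]) he
    change MvPolynomial.aeval ![1, (Polynomial.X : Polynomial O)]
      (MvPolynomial.C c * homg 4 A ^ 3) = MvPolynomial.aeval ![1, (Polynomial.X : Polynomial O)]
      (MvPolynomial.C d * homg 6 B ^ 2) at h2
    rw [map_mul, map_mul, map_pow, map_pow, aeval_homg_one hA, aeval_homg_one hB,
      MvPolynomial.algHom_C, MvPolynomial.algHom_C, Polynomial.aeval_X_left_apply,
      Polynomial.aeval_X_left_apply] at h2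
    obtain ⟨h3, h4⟩ := hj c d h2
    rcases hcd with h5 | h5
    · exact h5 h3
    · exact h5 h4
  refine hasVoisinChi_eqn (W := weiP A B) rfl hmO hj' ?_ h.ind ?_ h.gen hζ s hsx hsy hsw
  · refine minimal_pull rfl hj' ?_ ?_ hmO
    · change MvPolynomial.eval ![1, 0] (homg 4 A) ≠ 0 ∨ MvPolynomial.eval ![1, 0] (homg 6 B) ≠ 0
      rw [eval_homg_zero, eval_homg_zero]
      exact h0
    · change MvPolynomial.eval ![0, 1] (homg 4 A) ≠ 0 ∨ MvPolynomial.eval ![0, 1] (homg 6 B) ≠ 0
      rw [eval_homg_top, eval_homg_top]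
      exact h1
  · change y ^ 2 = x ^ 3 + MvPolynomial.aeval ![1, w ^ m] (homg 4 A) * x +
      MvPolynomial.aeval ![1, w ^ m] (homg 6 B)
    rw [aeval_homg_one hA, aeval_homg_one hB]
    exact h.eqn

end

end CX.CHI
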